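import Mathlib

open Polynomial Finset

namespace Pool.Agent.EABE1

theorem lagr {A : Type} [DecidableEq A] (s : Finset A) (v : A → ℚ) (g : ℚ[X]) (ν : ℕ)
    (L Ξ m x : ℚ) (hL : 0 < L) (hΞ : 0 ≤ Ξ) (hs : s.card = ν + 1) (hg : g.natDegree ≤ ν)
    (hsep : ∀ a ∈ s, ∀ a' ∈ s, a ≠ a' → L ≤ |v a - v a'|) (hx : ∀ a ∈ s, |x - v a| ≤ Ξ * L)
    (hm : ∀ a ∈ s, |g.eval (v a)| ≤ m) : |g.eval x| ≤ (ν + 1) * Ξ ^ ν * m := by
  have hinj : Set.InjOn v s := fun a ha a' ha' h => by
    by_contra hne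
    have := hsep a ha a' ha' hne
    rw [h, sub_self, abs_zero] at this
    linarith
  have hdeg : g.degree < s.card := by
    rw [hs]; exact degree_le_natDegree.trans_lt (by exact_mod_cast Nat.lt_succ_of_le hg)
  rw [Lagrange.eq_interpolate hinj hdeg, Lagrange.interpolate_apply, eval_finsetSum]
  refine (abs_sum_le_sum_abs _ _).trans ((sum_le_card_nsmul _ _ (Ξ ^ ν * m) fun a ha => ?_).trans ?_)
  · rw [eval_mul, eval_C, abs_mul, mul_comm]
    refine mul_le_mul ?_ (hm a ha) (abs_nonneg _) (by positivity)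
    rw [Lagrange.basis, eval_prod, abs_prod]
    have hc : (s.erase a).card = ν := by rw [card_erase_of_mem ha, hs]; rfl
    rw [← hc, ← prod_const]
    refine prod_le_prod (fun _ _ => abs_nonneg _) fun a' ha' => ?_
    have h1 := hsep a ha a' (mem_of_mem_erase ha') (ne_of_mem_erase ha').symm
    have h2 := hx a' (mem_of_mem_erase ha')
    simp only [Lagrange.basisDivisor, eval_mul, eval_C, eval_sub, eval_X, abs_mul, abs_inv]
    rw [inv_mul_le_iff₀ (by linarith)]
    nlinarith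
  · rw [hs, nsmul_eq_mul]; push_cast; exact le_of_eq (by ring)

theorem coeff_taylor_top {g : ℚ[X]} {ν : ℕ} (hg : g.natDegree ≤ ν) (r : ℚ) :
    (taylor r g).coeff ν = g.coeff ν := by
  rcases hg.eq_or_lt with h | h
  · rw [← h, coeff_taylor_natDegree]; rfl
  · rw [coeff_eq_zero_of_natDegree_lt h,
      coeff_eq_zero_of_natDegree_lt (by rwa [natDegree_taylor])]

/-- E1, the counting lemma -/
theorem count {A J : Type} (b ν Λ Ξ W G : ℕ) (hb : 2 ≤ b) (hΛ : 0 < Λ) (hΞ : 1 ≤ Ξ)
    (hG : W * ((ν + 1) * Ξ ^ ν) ^ 2 < 2 ^ G) (σ π : A → J → ℤ) (k : ℕ) :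
    ∀ (S : Finset J) (T : Finset A) (g : J → ℚ[X]), S.card = k → k ≤ W →
      (∀ j, (g j).natDegree ≤ ν) →
      (∀ a ∈ T, ∀ a' ∈ T, a ≠ a' → ∀ j ∈ S, (Λ : ℤ) ≤ |π a j - π a' j| ∧ |π a j - π a' j| ≤ Ξ * Λ) →
      (∀ a ∈ T, ∀ a' ∈ T, ∀ j ∈ S, ∀ j' ∈ S,
        σ a j - σ a j' = σ a' j - σ a' j' → π a j - π a j' = π a' j - π a' j') →
      (∀ a ∈ T, ∑ j ∈ S, (b : ℚ) ^ (-σ a j) * (g j).eval (π a j : ℚ) = 0) →
      (∀ a ∈ T, ∑ j ∈ S, (b : ℚ) ^ (-σ a j) * (g j).coeff ν ≠ 0) →
      T.card ≤ (W ^ 2 * G + W * ν + 1) ^ k := by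
  classical
  have hb1 : (1 : ℚ) < b := by exact_mod_cast hb
  have hb0 : (0 : ℚ) < b := by linarith
  induction k with
  | zero =>
    intro S T g hS _ _ _ _ _ htop
    rw [card_eq_zero.mp hS] at htop
    rw [eq_empty_of_forall_notMem fun a ha => htop a ha (sum_empty)]
    simp
  | succ k ih =>
    intro S T g hS hW hg hsep hrig hrel htop
    set Q := W ^ 2 * G + W * ν + 1 with hQ
    have hQ1 : 1 ≤ Q ^ k := Nat.one_le_pow _ _ (by omega)
    by_cases hz : ∃ j ∈ S, g j = 0
    · obtain ⟨j, hj, hj0⟩ := hz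
      refine (ih (S.erase j) T g (by rw [card_erase_of_mem hj, hS]; rfl) (by omega) hg
        (fun a ha a' ha' h i hi => hsep a ha a' ha' h i (mem_of_mem_erase hi))
        (fun a ha a' ha' i hi i' hi' => hrig a ha a' ha' i (mem_of_mem_erase hi) i' (mem_of_mem_erase hi'))
        (fun a ha => ?_) (fun a ha => ?_)).trans (Nat.pow_le_pow_right (by omega) (by omega))
      · rw [← hrel a ha, ← add_sum_erase _ _ hj, hj0]; simp
      · have := htop a ha
        rw [← add_sum_erase _ _ hj, hj0] at this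
        simpa using this
    push Not at hz
    by_cases hT : T.card ≤ ν
    · have : ν ≤ Q := by nlinarith
      exact hT.trans (this.trans (by rw [pow_succ]; exact Nat.le_mul_of_pos_left _ hQ1))
    have hTne : T.Nonempty := card_pos.mp (by omega)
    set R : ℚ := (ν + 1) * (Ξ : ℚ) ^ ν with hR
    have hR0 : 0 < R := by positivity
    have hΛ' : (0 : ℚ) < Λ := by exact_mod_cast hΛ
    choose am ham hmax using fun j => exists_max_image T (fun a => |(g j).eval (π a j : ℚ)|) hTne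
    let M : J → ℚ := fun j => |(g j).eval (π (am j) j : ℚ)|
    have hsep' : ∀ j ∈ S, ∀ a ∈ T, ∀ a' ∈ T, a ≠ a' → (Λ : ℚ) ≤ |(π a j : ℚ) - π a' j| :=
      fun j hj a ha a' ha' h => by exact_mod_cast (hsep a ha a' ha' h j hj).1
    have hM : ∀ j ∈ S, 0 < M j := by
      intro j hj
      refine lt_of_le_of_ne (abs_nonneg _) fun h0 => hz j hj ?_
      refine eq_zero_of_natDegree_lt_card_of_eval_eq_zero' (g j) (T.image fun a => (π a j : ℚ))
        (fun x hx => ?_) ?_
      · obtain ⟨a, ha, rfl⟩ := mem_image.mp hx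
        exact abs_nonpos_iff.mp ((hmax j a ha).trans h0.ge)
      · rw [card_image_of_injOn fun a ha a' ha' h => ?_]
        · have := hg j; omega
        · by_contra hne
          have := hsep' j hj a ha a' ha' hne
          rw [h, sub_self, abs_zero] at this
          linarith
    let bad : J → Finset A := fun j => T.filter fun a => R * |(g j).eval (π a j : ℚ)| < M j
    have hbad : ∀ j ∈ S, (bad j).card ≤ ν := by
      intro j hj
      by_contra hc
      obtain ⟨s, hs, hsc⟩ := exists_subset_card_eq (s := bad j) (n := ν + 1) (by omega)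
      have hsT : ∀ a ∈ s, a ∈ T := fun a ha => (mem_filter.mp (hs ha)).1
      obtain ⟨a1, ha1, h1⟩ := exists_max_image s (fun a => |(g j).eval (π a j : ℚ)|)
        (card_pos.mp (by omega))
      have h2 := lagr s (fun a => (π a j : ℚ)) (g j) ν Λ Ξ _ (π (am j) j) hΛ' (by positivity) hsc
        (hg j) (fun a ha a' ha' h => hsep' j hj a (hsT a ha) a' (hsT a' ha') h)
        (fun a ha => by
          by_cases h : am j = a
          · rw [h, sub_self, abs_zero]; positivity
          · exact_mod_cast (hsep _ (ham j) a (hsT a ha) h j hj).2) h1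
      exact absurd (mem_filter.mp (hs ha1)).2 (not_lt.mpr h2)
    let T' := T \ S.biUnion bad
    have hT'T : ∀ a ∈ T', a ∈ T := fun a ha => (mem_sdiff.mp ha).1
    have hcard : T.card ≤ T'.card + W * ν := by
      have h1 : (S.biUnion bad).card ≤ W * ν :=
        (card_biUnion_le_card_mul _ _ _ hbad).trans (Nat.mul_le_mul_right _ (by omega))
      have := le_card_sdiff (S.biUnion bad) T
      simp only [T']; omega
    have hgood : ∀ a ∈ T', ∀ j ∈ S, M j ≤ R * |(g j).eval (π a j : ℚ)| := by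
      intro a ha j hj
      by_contra h
      exact (mem_sdiff.mp ha).2 (mem_biUnion.mpr ⟨j, hj, mem_filter.mpr ⟨hT'T a ha, not_le.mp h⟩⟩)
    have hpair : ∀ a, ∃ p : J × J, a ∈ T' → p.1 ∈ S ∧ p.2 ∈ S ∧ p.2 ≠ p.1 ∧
        (b : ℚ) ^ (-σ a p.1) * M p.1 ≤ R * W * ((b : ℚ) ^ (-σ a p.2) * M p.2) ∧
        (b : ℚ) ^ (-σ a p.2) * M p.2 ≤ R * ((b : ℚ) ^ (-σ a p.1) * M p.1) := by
      intro a
      have hSne : S.Nonempty := card_pos.mp (by omega)
      by_cases ha : a ∈ T'
      swap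
      · exact ⟨(hSne.choose, hSne.choose), fun h => absurd h ha⟩
      let t : J → ℚ := fun j => (b : ℚ) ^ (-σ a j) * (g j).eval (π a j : ℚ)
      have ht : ∀ j, |t j| = (b : ℚ) ^ (-σ a j) * |(g j).eval (π a j : ℚ)| := fun j => by
        rw [abs_mul, abs_of_pos (zpow_pos hb0 _)]
      have lo : ∀ j ∈ S, (b : ℚ) ^ (-σ a j) * M j ≤ R * |t j| := fun j hj => by
        rw [ht, mul_left_comm]
        exact mul_le_mul_of_nonneg_left (hgood a ha j hj) (zpow_pos hb0 _).le
      have hi : ∀ j, |t j| ≤ (b : ℚ) ^ (-σ a j) * M j := fun j => by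
        rw [ht]; exact mul_le_mul_of_nonneg_left (hmax j a (hT'T a ha)) (zpow_pos hb0 _).le
      obtain ⟨j1, hj1, h1⟩ := exists_max_image S (fun j => |t j|) hSne
      have hsum : t j1 = -∑ j ∈ S.erase j1, t j :=
        eq_neg_of_add_eq_zero_left ((add_sum_erase S t hj1).trans (hrel a (hT'T a ha)))
      have hne : (S.erase j1).Nonempty := by
        rw [nonempty_iff_ne_empty]
        intro h
        have h2 := lo j1 hj1
        rw [hsum, h, sum_empty, neg_zero, abs_zero, mul_zero] at h2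
        exact absurd (mul_pos (zpow_pos hb0 _) (hM j1 hj1)) (not_lt.mpr h2)
      obtain ⟨j2, hj2, h2⟩ := exists_max_image (S.erase j1) (fun j => |t j|) hne
      have h3 : |t j1| ≤ W * |t j2| := by
        rw [hsum, abs_neg]
        refine (abs_sum_le_sum_abs _ _).trans ((sum_le_card_nsmul _ _ _ h2).trans ?_)
        rw [nsmul_eq_mul]
        refine mul_le_mul_of_nonneg_right ?_ (abs_nonneg _)
        have := card_erase_le (s := S) (a := j1)
        exact_mod_cast (by omega : (S.erase j1).card ≤ W)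
      refine ⟨(j1, j2), fun _ => ⟨hj1, mem_of_mem_erase hj2, ne_of_mem_erase hj2, ?_, ?_⟩⟩
      · refine (lo j1 hj1).trans ?_
        rw [mul_assoc R]
        exact mul_le_mul_of_nonneg_left
          (h3.trans (mul_le_mul_of_nonneg_left (hi j2) (by positivity))) hR0.le
      · exact (lo j2 (mem_of_mem_erase hj2)).trans (mul_le_mul_of_nonneg_left
          ((h1 j2 (mem_of_mem_erase hj2)).trans (hi j1)) hR0.le)
    choose p hp using hpair
    have hG' : W * R ^ 2 < (b : ℚ) ^ (G : ℤ) := by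
      have h1 : ((W * ((ν + 1) * Ξ ^ ν) ^ 2 : ℕ) : ℚ) < ((b ^ G : ℕ) : ℚ) := by
        exact_mod_cast hG.trans_le (Nat.pow_le_pow_left hb G)
      rw [zpow_natCast]
      push_cast at h1
      exact h1
    have hG0 : 0 < G := by
      rcases Nat.eq_zero_or_pos G with h | h
      · have : 0 < W * ((ν + 1) * Ξ ^ ν) ^ 2 := Nat.mul_pos (by omega) (by positivity)
        rw [h] at hG; omega
      · exact h
    have hclose : ∀ a ∈ T', ∀ a' ∈ T', p a = p a' →
        (σ a' (p a).1 - σ a' (p a).2) - (σ a (p a).1 - σ a (p a).2) < G := by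
      intro a ha a' ha' h
      obtain ⟨m1, m2, -, h1, -⟩ := hp a ha
      obtain ⟨-, -, -, -, h2⟩ := hp a' ha'
      rw [← h] at h2
      have p1 := hM _ m1
      have p2 := hM _ m2
      rw [← zpow_lt_zpow_iff_right₀ hb1]
      refine lt_of_le_of_lt ?_ hG'
      have e : (b : ℚ) ^ ((σ a' (p a).1 - σ a' (p a).2) - (σ a (p a).1 - σ a (p a).2)) =
          ((b : ℚ) ^ (-σ a (p a).1) * (b : ℚ) ^ (-σ a' (p a).2)) /
            ((b : ℚ) ^ (-σ a (p a).2) * (b : ℚ) ^ (-σ a' (p a).1)) := by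
        rw [← zpow_add₀ hb0.ne', ← zpow_add₀ hb0.ne', ← zpow_sub₀ hb0.ne']; congr 1; ring
      have h3 := mul_le_mul h1 h2 (by positivity) (by positivity)
      rw [e, div_le_iff₀ (by positivity)]
      refine le_of_mul_le_mul_right ?_ (mul_pos p1 p2)
      linarith
    let f : A → (J × J) × ℤ := fun a => (p a, (σ a (p a).1 - σ a (p a).2) % G)
    have hfib := card_le_mul_card_image_of_maps_to (f := f) (s := T')
      (t := (S ×ˢ S) ×ˢ Ico (0 : ℤ) G)
      (fun a ha => mem_product.mpr ⟨mem_product.mpr ⟨(hp a ha).1, (hp a ha).2.1⟩,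
        mem_Ico.mpr ⟨Int.emod_nonneg _ (by omega), Int.emod_lt_of_pos _ (by omega)⟩⟩) (Q ^ k) (by
      intro c _
      rcases (T'.filter fun a => f a = c).eq_empty_or_nonempty with h | ⟨a0, ha0⟩
      · rw [h]; simp
      obtain ⟨ha0', hf0⟩ := mem_filter.mp ha0
      obtain ⟨m1, m2, hne, -, -⟩ := hp a0 ha0'
      set j1 := (p a0).1
      set j2 := (p a0).2
      have hFT : ∀ a ∈ T'.filter fun a => f a = c, a ∈ T := fun a ha => hT'T a (mem_filter.mp ha).1
      have hd : ∀ a ∈ T'.filter fun a => f a = c, σ a j1 - σ a j2 = σ a0 j1 - σ a0 j2 := by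
        intro a ha
        obtain ⟨ha', hf⟩ := mem_filter.mp ha
        have h1 : f a = f a0 := hf.trans hf0.symm
        have h2 : p a = p a0 := congrArg Prod.fst h1
        have h3 := congrArg Prod.snd h1
        simp only [f, h2] at h3
        have h4 := hclose a ha' a0 ha0' h2
        have h5 := hclose a0 ha0' a ha' h2.symm
        rw [h2] at h4
        have h6 := Int.eq_zero_of_abs_lt_dvd
          (Int.dvd_of_emod_eq_zero (Int.emod_eq_emod_iff_emod_sub_eq_zero.mp h3))
          (abs_lt.mpr ⟨by linarith, h5⟩)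
        linarith
      have hm2 : j2 ∈ S.erase j1 := mem_erase.mpr ⟨hne, m2⟩
      have key : ∀ a ∈ T'.filter fun a => f a = c, ∀ (u u' : J → ℚ),
          u' j2 = u j2 + (b : ℚ) ^ (-(σ a0 j1 - σ a0 j2)) * u j1 → (∀ j, j ≠ j2 → u' j = u j) →
          ∑ j ∈ S.erase j1, (b : ℚ) ^ (-σ a j) * u' j = ∑ j ∈ S, (b : ℚ) ^ (-σ a j) * u j := by
        intro a ha u u' h1 h2
        rw [← add_sum_erase _ _ m1, ← add_sum_erase _ _ hm2, ← add_sum_erase _ _ hm2, h1,
          sum_congr rfl fun j hj => by rw [h2 j (ne_of_mem_erase hj)], ← hd a ha, mul_add,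
          ← mul_assoc, ← zpow_add₀ hb0.ne', show -σ a j2 + -(σ a j1 - σ a j2) = -σ a j1 by ring]
        ring
      refine ih (S.erase j1) _ (Function.update g j2 (g j2 + C ((b : ℚ) ^ (-(σ a0 j1 - σ a0 j2))) *
        taylor ((π a0 j1 - π a0 j2 : ℤ) : ℚ) (g j1))) (by rw [card_erase_of_mem m1, hS]; rfl)
        (by omega) (fun j => ?_)
        (fun a ha a' ha' h i hi => hsep a (hFT a ha) a' (hFT a' ha') h i (mem_of_mem_erase hi))
        (fun a ha a' ha' i hi i' hi' =>
          hrig a (hFT a ha) a' (hFT a' ha') i (mem_of_mem_erase hi) i' (mem_of_mem_erase hi'))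
        (fun a ha => ?_) (fun a ha => ?_)
      · by_cases h : j = j2
        · rw [h, Function.update_self]
          exact (natDegree_add_le _ _).trans (max_le (hg _)
            ((natDegree_C_mul_le _ _).trans ((natDegree_taylor _ _).trans_le (hg _))))
        · rw [Function.update_of_ne h]; exact hg j
      · rw [← hrel a (hFT a ha)]
        refine key a ha (fun j => (g j).eval (π a j : ℚ)) _ ?_
          fun j hj => by rw [Function.update_of_ne hj]
        rw [Function.update_self, eval_add, eval_mul, eval_C, taylor_eval,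
          ← hrig a (hFT a ha) a0 (hT'T a0 ha0') j1 m1 j2 m2 (hd a ha)]
        congr 3; push_cast; ring
      · refine fun h => htop a (hFT a ha) ((key a ha (fun j => (g j).coeff ν) _ ?_
          fun j hj => by rw [Function.update_of_ne hj]).symm.trans h)
        rw [Function.update_self, coeff_add, coeff_C_mul, coeff_taylor_top (hg _)])
    have hc : ((S ×ˢ S) ×ˢ Ico (0 : ℤ) G).card ≤ W ^ 2 * G := by
      rw [card_product, card_product, hS, Int.card_Ico, sub_zero, Int.toNat_natCast, sq]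
      exact Nat.mul_le_mul_right _ (Nat.mul_le_mul hW hW)
    calc T.card ≤ Q ^ k * (W ^ 2 * G) + W * ν :=
          hcard.trans (Nat.add_le_add_right (hfib.trans (Nat.mul_le_mul_left _ hc)) _)
      _ ≤ Q ^ k * (W ^ 2 * G) + Q ^ k * (W * ν + 1) :=
          Nat.add_le_add_left ((Nat.le_succ _).trans (Nat.le_mul_of_pos_left _ hQ1)) _
      _ = Q ^ (k + 1) := by rw [pow_succ, hQ]; ring

/-- E1 in span form -/
theorem span_form {A J : Type} [Fintype J] (b ν Λ Ξ W G : ℕ) (hb : 2 ≤ b) (hΛ : 0 < Λ) (hΞ : 1 ≤ Ξ)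
    (hG : W * ((ν + 1) * Ξ ^ ν) ^ 2 < 2 ^ G) (σ π : A → J → ℤ) (T : Finset A)
    (hW : Fintype.card J ≤ W)
    (hsep : ∀ a ∈ T, ∀ a' ∈ T, a ≠ a' → ∀ j, (Λ : ℤ) ≤ |π a j - π a' j| ∧ |π a j - π a' j| ≤ Ξ * Λ)
    (hrig : ∀ a ∈ T, ∀ a' ∈ T, ∀ j j',
      σ a j - σ a j' = σ a' j - σ a' j' → π a j - π a j' = π a' j - π a' j')
    (hT : (W ^ 2 * G + W * ν + 1) ^ W < T.card) :
    ∃ a ∈ T, (fun p : J × Fin (ν + 1) => if (p.2 : ℕ) = ν then (b : ℚ) ^ (-σ a p.1) else 0) ∈
      Submodule.span ℚ ((fun a' (p : J × Fin (ν + 1)) =>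
        (b : ℚ) ^ (-σ a' p.1) * (π a' p.1 : ℚ) ^ (p.2 : ℕ)) '' T) := by
  classical
  by_contra hcon
  push Not at hcon
  set U := Submodule.span ℚ ((fun a' (p : J × Fin (ν + 1)) =>
        (b : ℚ) ^ (-σ a' p.1) * (π a' p.1 : ℚ) ^ (p.2 : ℕ)) '' T) with hU
  obtain ⟨f, hf⟩ := Module.exists_dual_forall_apply_ne_zero (K := ℚ) (ι := T)
    (fun a => U.mkQ fun p : J × Fin (ν + 1) => if (p.2 : ℕ) = ν then (b : ℚ) ^ (-σ a p.1) else 0)
    (fun a h => hcon a a.2 ((Submodule.Quotient.mk_eq_zero U).mp h))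
  let c : J × Fin (ν + 1) → ℚ := fun p => f (U.mkQ fun q => if p = q then 1 else 0)
  have hc : ∀ x : J × Fin (ν + 1) → ℚ, f (U.mkQ x) = ∑ j, ∑ e, x (j, e) * c (j, e) := fun x => by
    have := LinearMap.pi_apply_eq_sum_univ (f ∘ₗ U.mkQ) x
    rw [Fintype.sum_prod_type] at this
    exact this
  have h := count b ν Λ Ξ W G hb hΛ hΞ hG σ π (Fintype.card J) univ T
    (fun j => ∑ e : Fin (ν + 1), C (c (j, e)) * X ^ (e : ℕ)) rfl hW
    (fun j => natDegree_sum_le_of_forall_le _ _ fun e _ =>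
      (natDegree_C_mul_X_pow_le _ _).trans (Nat.le_of_lt_succ e.2))
    (fun a ha a' ha' h j _ => hsep a ha a' ha' h j) (fun a ha a' ha' j _ j' _ => hrig a ha a' ha' j j')
    (fun a ha => by
      have h1 : U.mkQ (fun p : J × Fin (ν + 1) =>
          (b : ℚ) ^ (-σ a p.1) * (π a p.1 : ℚ) ^ (p.2 : ℕ)) = 0 :=
        (Submodule.Quotient.mk_eq_zero U).mpr (Submodule.subset_span ⟨a, ha, rfl⟩)
      have h2 := hc fun p => (b : ℚ) ^ (-σ a p.1) * (π a p.1 : ℚ) ^ (p.2 : ℕ)
      rw [h1, map_zero] at h2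
      rw [h2]
      refine sum_congr rfl fun j _ => ?_
      rw [eval_finsetSum, mul_sum]
      exact sum_congr rfl fun e _ => by simp; ring)
    (fun a ha h => hf ⟨a, ha⟩ (by
      rw [hc]
      refine Eq.trans (sum_congr rfl fun j _ => ?_) h
      rw [finsetSum_coeff, mul_sum]
      refine sum_congr rfl fun e _ => ?_
      rw [coeff_C_mul_X_pow]
      by_cases he : (e : ℕ) = ν
      · simp [he]
      · simp [he, Ne.symm he]))
  have := Nat.pow_le_pow_right (n := W ^ 2 * G + W * ν + 1) (by omega) hW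
  omega

end Pool.Agent.EABE1
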