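import Pool.Agent.EABL.Nm

open Polynomial Finset Matrix

namespace Pool.Agent.EABE2

open EABNm

theorem nm_one : nm 1 = 1 := by simpa using nm_C 1

theorem nm_prod_le {ι : Type*} (s : Finset ι) (f : ι → ℤ[X]) {h : ℤ} (hf : ∀ i ∈ s, nm (f i) ≤ h) :
    nm (∏ i ∈ s, f i) ≤ h ^ s.card := by
  classical
  induction s using Finset.induction_on with
  | empty => simp [nm_one]
  | insert a s ha ih =>
    rw [prod_insert ha, card_insert_of_notMem ha, pow_succ']
    have h1 := hf a (mem_insert_self _ _)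
    exact (nm_mul _ _).trans (mul_le_mul h1 (ih fun i hi => hf i (mem_insert_of_mem hi))
      (nm_nonneg _) ((nm_nonneg _).trans h1))

theorem nm_det_le {ι : Type*} [Fintype ι] [DecidableEq ι] (M : Matrix ι ι ℤ[X]) {h : ℤ}
    (hM : ∀ i j, nm (M i j) ≤ h) :
    nm M.det ≤ (Fintype.card ι).factorial * h ^ Fintype.card ι := by
  rw [det_apply]
  refine (nm_sum _ _).trans ((sum_le_card_nsmul _ _ (h ^ Fintype.card ι) fun σ _ => ?_).trans ?_)
  · have h1 := nm_prod_le univ (fun i => M (σ i) i) fun i _ => hM _ _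
    rcases Int.units_eq_one_or (Equiv.Perm.sign σ) with h2 | h2 <;> rw [h2]
    · simpa using h1
    · simpa [nm_neg] using h1
  · simp [Fintype.card_perm]

theorem natDegree_det_le {ι R : Type*} [Fintype ι] [DecidableEq ι] [CommRing R]
    (M : Matrix ι ι R[X]) {d : ℕ} (hM : ∀ i j, (M i j).natDegree ≤ d) :
    M.det.natDegree ≤ Fintype.card ι * d := by
  rw [det_apply]
  refine natDegree_sum_le_of_forall_le _ _ fun σ _ => ?_
  have h1 : (∏ i, M (σ i) i).natDegree ≤ Fintype.card ι * d :=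
    (natDegree_prod_le _ _).trans ((sum_le_card_nsmul _ _ d fun i _ => hM _ _).trans (by simp))
  rcases Int.units_eq_one_or (Equiv.Perm.sign σ) with h2 | h2 <;> rw [h2]
  · simpa using h1
  · simpa using h1

/-- `ev` as a ring map -/
noncomputable def evh (B : ℕ) : ℤ[X] →+* ℚ := (aeval ((B : ℚ)⁻¹) : ℤ[X] →ₐ[ℤ] ℚ).toRingHom

theorem evh_apply (B : ℕ) (f : ℤ[X]) : evh B f = ev B f := rfl

/-- E2: membership in a span at `1/B` lifts to a polynomial identity (Gram determinant). -/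
theorem span_lift {A K : Type} [Fintype K] (B H lam n : ℕ) (x : A → K → ℤ[X]) (y : K → ℤ[X])
    (T : Finset A) (hn : Fintype.card K ≤ n) (hH : 1 ≤ H)
    (hx : ∀ a ∈ T, ∀ k, (x a k).natDegree ≤ lam ∧ nm (x a k) ≤ H)
    (hy : ∀ k, (y k).natDegree ≤ lam ∧ nm (y k) ≤ H)
    (hB : (n + 1) * (n.factorial * ((n + 1) * H ^ 2) ^ n) * H < B)
    (hs : (fun k => ev B (y k)) ∈ Submodule.span ℚ ((fun a k => ev B (x a k)) '' T)) :
    ∃ (Δ : ℤ[X]) (c : A → ℤ[X]), Δ ≠ 0 ∧ Δ.natDegree ≤ n * (2 * lam) ∧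
      nm Δ ≤ (n.factorial * ((n + 1) * H ^ 2) ^ n : ℕ) ∧ (∀ a, (c a).natDegree ≤ n * (2 * lam)) ∧
      ∀ k, Δ * y k = ∑ a ∈ T, c a * x a k := by
  classical
  obtain ⟨b, hbs, hsp, hli⟩ := exists_linearIndependent ℚ ((fun a k => ev B (x a k)) '' T)
  have hfin : b.Finite := ((T.finite_toSet).image _).subset hbs
  let _ : Fintype b := hfin.fintype
  have hc : Fintype.card b ≤ n := le_trans (by simpa using hli.fintype_card_le_finrank) hn
  choose ρ hρT hρ using fun v : b => hbs v.2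
  let P : Matrix b K ℤ[X] := fun v k => x (ρ v) k
  let Gm : Matrix b b ℤ[X] := P * Pᵀ
  let w : b → ℤ[X] := P *ᵥ y
  let P' : Matrix b K ℚ := fun v k => (v : K → ℚ) k
  have hP' : P.map (evh B) = P' := by
    ext v k; exact congrFun (hρ v) k
  have hG' : (evh B).mapMatrix Gm = P' * P'ᵀ := by
    rw [RingHom.mapMatrix_apply, Matrix.map_mul, hP', Matrix.transpose_map, hP']
  have hinj : ∀ v, (P' * P'ᵀ) *ᵥ v = 0 → v = 0 := by
    intro v hv
    have h1 : P'ᵀ *ᵥ v = 0 := by
      have := (self_mul_conjTranspose_mulVec_eq_zero P' v).mp (by simpa using hv)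
      simpa using this
    refine funext (Fintype.linearIndependent_iff.mp hli v ?_)
    funext k
    have := congrFun h1 k
    simpa [Matrix.mulVec, dotProduct, P', Finset.sum_apply, mul_comm] using this
  have hdet : evh B Gm.det ≠ 0 := by
    rw [RingHom.map_det, hG']
    intro h
    obtain ⟨v, hv, h2⟩ := exists_mulVec_eq_zero_iff.mpr h
    exact hv (hinj v h2)
  rw [← hsp, ← Subtype.range_coe (s := b), Submodule.mem_span_range_iff_exists_fun] at hs
  obtain ⟨t, ht⟩ := hs
  have ht' : ∀ k, ev B (y k) = ∑ v, t v * P' v k := fun k => by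
    simpa [Finset.sum_apply, P'] using (congrFun ht k).symm
  have hcr : ∀ v, evh B (cramer Gm w v) = evh B Gm.det * t v := by
    have h1 : (P' * P'ᵀ) *ᵥ (fun v => evh B (cramer Gm w v) - evh B Gm.det * t v) = 0 := by
      funext v
      have h2 := congrArg (evh B) (congrFun (mulVec_cramer Gm w) v)
      rw [RingHom.map_mulVec, Pi.smul_apply, smul_eq_mul, map_mul, RingHom.map_mulVec, hP'] at h2
      have h3 : (P' *ᵥ (evh B ∘ y)) v = ((P' * P'ᵀ) *ᵥ t) v := by
        rw [← mulVec_mulVec]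
        congr 1
        funext k
        simp [evh_apply, ht', Matrix.mulVec, dotProduct, mul_comm]
      rw [h3] at h2
      have h4 : Gm.map (evh B) = P' * P'ᵀ := hG'
      rw [h4] at h2
      have e : (fun v => evh B (cramer Gm w v) - evh B Gm.det * t v)
          = (evh B ∘ cramer Gm w) - evh B Gm.det • t := rfl
      rw [e, mulVec_sub, mulVec_smul, Pi.sub_apply, h2]
      simp
    intro v
    exact sub_eq_zero.mp (congrFun (hinj _ h1) v)
  have hent : ∀ (f g : K → ℤ[X]), (∀ k, (f k).natDegree ≤ lam ∧ nm (f k) ≤ H) →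
      (∀ k, (g k).natDegree ≤ lam ∧ nm (g k) ≤ H) →
      (∑ k, f k * g k).natDegree ≤ 2 * lam ∧ nm (∑ k, f k * g k) ≤ ((n + 1) * H ^ 2 : ℕ) := by
    intro f g hf hg
    refine ⟨natDegree_sum_le_of_forall_le _ _ fun k _ => natDegree_mul_le.trans ?_,
      (nm_sum _ _).trans ((sum_le_card_nsmul _ _ ((H : ℤ) * H) fun k _ => (nm_mul _ _).trans
        (mul_le_mul (hf k).2 (hg k).2 (nm_nonneg _) (by positivity))).trans ?_)⟩
    · have := (hf k).1; have := (hg k).1; omega
    · have : (Fintype.card K : ℤ) ≤ n := by exact_mod_cast hn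
      rw [card_univ, nsmul_eq_mul]; push_cast; nlinarith [sq_nonneg (H : ℤ)]
  have hbd : ∀ M : Matrix b b ℤ[X],
      (∀ i j, (M i j).natDegree ≤ 2 * lam ∧ nm (M i j) ≤ ((n + 1) * H ^ 2 : ℕ)) →
      M.det.natDegree ≤ n * (2 * lam) ∧ nm M.det ≤ (n.factorial * ((n + 1) * H ^ 2) ^ n : ℕ) := by
    intro M hM
    refine ⟨(natDegree_det_le M fun i j => (hM i j).1).trans (Nat.mul_le_mul_right _ hc),
      (nm_det_le M fun i j => (hM i j).2).trans ?_⟩
    exact_mod_cast Nat.mul_le_mul (Nat.factorial_le hc)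
      (Nat.pow_le_pow_right (by positivity) hc)
  have hGe : ∀ i j, (Gm i j).natDegree ≤ 2 * lam ∧ nm (Gm i j) ≤ ((n + 1) * H ^ 2 : ℕ) :=
    fun i j => hent _ _ (hx _ (hρT i)) (hx _ (hρT j))
  have hD := hbd Gm hGe
  have hC : ∀ v, (cramer Gm w v).natDegree ≤ n * (2 * lam) ∧
      nm (cramer Gm w v) ≤ (n.factorial * ((n + 1) * H ^ 2) ^ n : ℕ) := fun v => by
    rw [cramer_apply]
    refine hbd _ fun i j => ?_
    rw [updateCol_apply]
    split_ifs
    · exact hent _ _ (hx _ (hρT i)) hy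
    · exact hGe i j
  refine ⟨Gm.det, fun a => ∑ v with ρ v = a, cramer Gm w v, fun h => hdet (by rw [h, map_zero]),
    hD.1, hD.2, fun a => natDegree_sum_le_of_forall_le _ _ fun v _ => (hC v).1, fun k => ?_⟩
  have e1 : ∑ a ∈ T, (∑ v with ρ v = a, cramer Gm w v) * x a k = ∑ v, cramer Gm w v * P v k := by
    rw [← sum_fiberwise_of_maps_to (s := univ) (t := T) (g := ρ) fun v _ => hρT v]
    refine sum_congr rfl fun a _ => ?_
    rw [sum_mul]
    exact sum_congr rfl fun v hv => by rw [← (mem_filter.mp hv).2]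
  rw [e1, ← sub_eq_zero]
  by_contra hne
  refine ev_ne_zero (B := B) hne ?_ ?_
  · set E : ℕ := n.factorial * ((n + 1) * H ^ 2) ^ n
    have a1 : nm (Gm.det * y k) ≤ (E : ℤ) * H :=
      (nm_mul _ _).trans (mul_le_mul hD.2 (hy k).2 (nm_nonneg _) (by positivity))
    have a2 : nm (∑ v, cramer Gm w v * P v k) ≤ (n : ℤ) * (E * H) := by
      refine (nm_sum _ _).trans ((sum_le_card_nsmul _ _ ((E : ℤ) * H) fun v _ => (nm_mul _ _).trans
        (mul_le_mul (hC v).2 (hx _ (hρT v) k).2 (nm_nonneg _) (by positivity))).trans ?_)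
      rw [card_univ, nsmul_eq_mul]
      exact mul_le_mul_of_nonneg_right (by exact_mod_cast hc) (by positivity)
    have a3 : (((n + 1) * E * H : ℕ) : ℤ) < B := by exact_mod_cast hB
    push_cast at a3
    have := nm_sub (Gm.det * y k) (∑ v, cramer Gm w v * P v k)
    linarith
  · rw [← evh_apply, map_sub, map_mul, map_sum, evh_apply B (y k), ht', mul_sum, sub_eq_zero]
    refine sum_congr rfl fun v _ => ?_
    rw [map_mul, hcr, ← hP', mul_assoc]; rfl

end Pool.Agent.EABE2
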