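import Pool.Agent.EABL.Lift1

open Polynomial Finset Matrix

namespace Pool.Agent.EABLift

open EABNm EABSR

theorem coeff_mul_fin {R : Type} [CommRing R] {n : ℕ} (p g : R[X]) (h : p.natDegree < n) (s : ℕ) :
    (p * g).coeff s = ∑ j : Fin n, p.coeff j * (X ^ (j : ℕ) * g).coeff s := by
  conv_lhs => rw [as_sum_range_C_mul_X_pow' p h, sum_mul, finsetSum_coeff]
  rw [Finset.sum_range]
  exact sum_congr rfl fun j _ => by rw [mul_assoc, coeff_C_mul]

theorem dvd_map_iff (f : ℤ[X]) (t : ℕ) :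
    X ^ t ∣ f.map (Int.castRingHom ℚ) ↔ X ^ t ∣ f := by
  simp [X_pow_dvd_iff, coeff_map]

/-- a formal relation of degree `≤ w` gives a small one of degree `≤ 2w` with the same support -/
theorem siegel_poly {ι : Type} [Fintype ι] (τ : ι → ℤ[X]) (H w th : ℕ) (Γ : Finset ι)
    (hτ : ∀ i, nm (τ i) ≤ H) (hM : Fintype.card ι * (2 * w + 1) ≤ H)
    (Ψ : ι → ℚ[X]) (h0 : Ψ ≠ 0) (hΓ : ∀ i ∉ Γ, Ψ i = 0) (hd : ∀ i, (Ψ i).natDegree ≤ w)
    (hdv : X ^ th ∣ ∑ i, Ψ i * (τ i).map (Int.castRingHom ℚ)) :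
    ∃ l : ι → ℤ[X], l ≠ 0 ∧ (∀ i ∉ Γ, l i = 0) ∧ (∀ i, (l i).natDegree ≤ 2 * w) ∧
      (∀ i, nm (l i) ≤ (H : ℤ) ^ (4 * Fintype.card ι + 1)) ∧ X ^ th ∣ ∑ i, l i * τ i := by
  classical
  obtain ⟨i1, hi1⟩ := Function.ne_iff.mp h0
  have hM1 : 1 ≤ Fintype.card ι := Fintype.card_pos_iff.mpr ⟨i1⟩
  have hwH : 2 * w + 1 ≤ H := le_trans (Nat.le_mul_of_pos_left _ hM1) hM
  let A : Matrix (Fin th ⊕ (ι × Fin (2 * w + 1))) (ι × Fin (2 * w + 1)) ℤ :=
    fun r p => r.elim (fun t => (X ^ (p.2 : ℕ) * τ p.1).coeff t)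
      (fun p' => if p' = p ∧ p'.1 ∉ Γ then 1 else 0)
  let φ : (Fin (w + 1) → ℚ) →ₗ[ℚ] (ι × Fin (2 * w + 1) → ℚ) :=
    LinearMap.pi fun p => (lcoeff ℚ p.2) ∘ₗ (LinearMap.mulRight ℚ (Ψ p.1)) ∘ₗ ofFn (w + 1)
  have hφ : ∀ a p, φ a p = (ofFn (w + 1) a * Ψ p.1).coeff p.2 := fun a p => rfl
  have hdeg : ∀ a i, (ofFn (w + 1) a * Ψ i).natDegree < 2 * w + 1 := fun a i => by
    have := ofFn_natDegree_lt (n := w + 1) (by omega) a
    have := hd i
    exact natDegree_mul_le.trans_lt (by omega)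
  have hinj : Function.Injective φ := by
    rw [injective_iff_map_eq_zero]
    intro a ha
    have : ofFn (w + 1) a * Ψ i1 = 0 := by
      ext k
      by_cases hk : k < 2 * w + 1
      · exact (hφ a (i1, ⟨k, hk⟩)).symm.trans (congrFun ha _)
      · exact coeff_eq_zero_of_natDegree_lt (by have := hdeg a i1; omega)
    exact injective_ofFn (w + 1) (((mul_eq_zero.mp this).resolve_right hi1).trans (map_zero _).symm)
  have hcard : Fintype.card (ι × Fin (2 * w + 1)) = Fintype.card ι * (2 * w + 1) := by simp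
  obtain ⟨t, ht0, htA, htb⟩ := siegel_rank A H (2 * Fintype.card ι) (w + 1)
    (by
      rintro (r | r) p
      · exact (coeff_le_nm _ _).trans ((nm_X_pow_mul _ _).trans (hτ _))
      · simp only [A, Sum.elim_inr]; split_ifs <;> simp; omega)
    (by omega) (LinearMap.range φ)
    (by
      rintro _ ⟨a, rfl⟩
      funext r
      rcases r with r | r
      · have h1 := X_pow_dvd_iff.mp (Dvd.dvd.mul_left hdv (ofFn (w + 1) a)) r r.2
        rw [mul_sum, finsetSum_coeff] at h1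
        rw [Pi.zero_apply, ← h1]
        simp only [Matrix.mulVec, dotProduct, Matrix.map_apply, A, Sum.elim_inl, hφ]
        rw [Fintype.sum_prod_type]
        refine sum_congr rfl fun i _ => ?_
        rw [← mul_assoc, coeff_mul_fin _ _ (hdeg a i)]
        refine sum_congr rfl fun j _ => ?_
        have e2 : (X : ℚ[X]) ^ (j : ℕ) * (τ i).map (Int.castRingHom ℚ)
          = (X ^ (j : ℕ) * τ i).map (Int.castRingHom ℚ) := by simp
        rw [e2, coeff_map, mul_comm]; simp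
      · simp only [Matrix.mulVec, dotProduct, Matrix.map_apply, A, Sum.elim_inr, hφ, Pi.zero_apply]
        refine sum_eq_zero fun p _ => ?_
        split_ifs with h
        · rw [← h.1, hΓ _ h.2]; simp
        · simp)
    (by rw [LinearMap.finrank_range_of_inj hinj]; simp) (by omega) (by rw [hcard]; nlinarith)
  have hb : ∀ p, |t p| ≤ (H : ℤ) ^ (4 * Fintype.card ι) := fun p => (htb p).trans (by
    rw [hcard]
    have : (Fintype.card ι * (2 * w + 1) * H) ^ (2 * Fintype.card ι) ≤ H ^ (4 * Fintype.card ι) := by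
      refine (Nat.pow_le_pow_left (Nat.mul_le_mul_right _ hM) _).trans (le_of_eq ?_)
      rw [← sq, ← pow_mul]; congr 1; ring
    exact_mod_cast this)
  let l : ι → ℤ[X] := fun i => ofFn (2 * w + 1) fun j => t (i, j)
  have hl : ∀ i (j : Fin (2 * w + 1)), (l i).coeff j = t (i, j) := fun i j =>
    ofFn_coeff_eq_val_of_lt _ j.2
  have hld : ∀ i, (l i).natDegree < 2 * w + 1 := fun i => ofFn_natDegree_lt (by omega) _
  refine ⟨l, fun h => ht0 (funext fun p => ?_), fun i hi => ?_, fun i => Nat.le_of_lt_succ (hld i),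
    fun i => ?_, X_pow_dvd_iff.mpr fun s hs => ?_⟩
  · rw [Pi.zero_apply, ← hl p.1 p.2, h]; simp
  · have : (fun j => t (i, j)) = 0 := funext fun j => by
      simpa [Matrix.mulVec, dotProduct, A, hi] using congrFun htA (Sum.inr (i, j))
    simp only [l, this, map_zero]
  · refine (nm_le_of_coeff _ (Nat.le_of_lt_succ (hld i)) (A := (H : ℤ) ^ (4 * Fintype.card ι))
      fun k => ?_).trans ?_
    · by_cases hk : k < 2 * w + 1
      · rw [hl i ⟨k, hk⟩]; exact hb _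
      · rw [coeff_eq_zero_of_natDegree_lt (by have := hld i; omega), abs_zero]; positivity
    · rw [pow_succ, mul_comm]
      exact mul_le_mul_of_nonneg_left (by exact_mod_cast hwH) (by positivity)
  · have h1 := congrFun htA (Sum.inl ⟨s, hs⟩)
    rw [Pi.zero_apply] at h1
    rw [← h1, finsetSum_coeff]
    simp only [Matrix.mulVec, dotProduct, A, Sum.elim_inl]
    rw [Fintype.sum_prod_type]
    refine sum_congr rfl fun i _ => ?_
    rw [coeff_mul_fin _ _ (hld i)]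
    exact sum_congr rfl fun j _ => by rw [hl, mul_comm]

theorem eq_zero_of_order {p : ℚ[X]} {g : ℤ[X]} {θ th d : ℕ} (hg : ¬ X ^ (θ + 1) ∣ g)
    (hd : p.natDegree ≤ d) (h : θ + d < th) (hdv : X ^ th ∣ p * g.map (Int.castRingHom ℚ)) :
    p = 0 := by
  by_contra hp
  rw [← dvd_map_iff] at hg
  set g' := g.map (Int.castRingHom ℚ)
  have hg0 : g' ≠ 0 := fun h0 => hg (h0 ▸ dvd_zero _)
  have h1 := (le_rootMultiplicity_iff (mul_ne_zero hp hg0) (a := (0 : ℚ)) (n := th)).mpr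
    (by simpa using hdv)
  rw [rootMultiplicity_mul (mul_ne_zero hp hg0)] at h1
  have h2 : rootMultiplicity (0 : ℚ) p ≤ d :=
    le_trans (by simpa using natDegree_le_of_dvd (pow_rootMultiplicity_dvd p 0) hp) hd
  have h3 : ¬ θ + 1 ≤ rootMultiplicity (0 : ℚ) g' := fun h4 =>
    hg (by simpa using (le_rootMultiplicity_iff hg0).mp h4)
  omega

theorem eval_map_ev (B : ℕ) (f : ℤ[X]) :
    (f.map (Int.castRingHom ℚ)).eval ((B : ℚ)⁻¹) = ev B f := by
  rw [ev, aeval_def, eval_map]; rfl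

theorem exists_int {B : ℕ} (hB : 1 ≤ B) (f : ℤ[X]) {d : ℕ} (hd : f.natDegree ≤ d) :
    ∃ a : ℤ, (a : ℚ) = (B : ℚ) ^ d * ev B f ∧ |a| ≤ (B : ℤ) ^ d * nm f := by
  refine ⟨_, ev_int hB f hd, ?_⟩
  have h := abs_ev_le hB f (t := 0) (by simp)
  have h2 : |((∑ k ∈ range (d + 1), f.coeff k * (B : ℤ) ^ (d - k) : ℤ) : ℚ)| ≤ (B : ℚ) ^ d * nm f := by
    rw [ev_int hB f hd, abs_mul, abs_of_nonneg (by positivity)]
    exact mul_le_mul_of_nonneg_left (by simpa using h) (by positivity)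
  exact_mod_cast h2

theorem lift2 {ι : Type} [Fintype ι] [DecidableEq ι] (τ : ι → ℤ[X]) (i0 : ι) (B H θ th : ℕ)
    (hτ : ∀ i, nm (τ i) ≤ H) (h0 : ¬ X ^ (θ + 1) ∣ τ i0)
    (hB : 2 * H ^ (4 * Fintype.card ι + 1) ≤ B) (k : ℕ) :
    ∀ (Γ : Finset ι) (w : ℕ) (Ψ : ι → ℚ[X]) (om : ι → ℤ) (ρ : ℚ), i0 ∉ Γ → Γ.card = k → 1 ≤ w →
      θ + 7 ^ k * w < th → Fintype.card ι * (2 * (7 ^ k * w) + 1) ≤ H →
      (∀ i ∉ insert i0 Γ, Ψ i = 0) → (∀ i, (Ψ i).natDegree ≤ w) →
      X ^ th ∣ ∑ i, Ψ i * (τ i).map (Int.castRingHom ℚ) → ρ ≠ 0 →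
      (∀ i, (Ψ i).eval ((B : ℚ)⁻¹) = ρ * om i) → (∀ i, |om i| ≤ (B : ℤ) ^ w) →
      ∃ (l : ι → ι → ℤ[X]) (a0 : ℤ) (a : ι → ℤ), a0 ≠ 0 ∧ |a0| ≤ (B : ℤ) ^ (7 ^ k * w) ∧
        (∀ κ, |a κ| ≤ (B : ℤ) ^ (7 ^ k * w)) ∧ (∀ κ i, (l κ i).natDegree ≤ 7 ^ k * w) ∧
        (∀ κ i, nm (l κ i) ≤ (H : ℤ) ^ (4 * Fintype.card ι + 1)) ∧
        (∀ κ, X ^ th ∣ ∑ i, l κ i * τ i) ∧
        ∀ i, (a0 : ℚ) * om i = ∑ κ ∈ Γ, (a κ : ℚ) * ev B (l κ i) := by
  have hM1 : 1 ≤ Fintype.card ι := Fintype.card_pos_iff.mpr ⟨i0⟩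
  have triv : ∀ (e : ℕ) (Γ : Finset ι) (Ψ : ι → ℚ[X]) (om : ι → ℤ) (ρ : ℚ), 1 ≤ B → Ψ = 0 → ρ ≠ 0 →
      (∀ i, (Ψ i).eval ((B : ℚ)⁻¹) = ρ * om i) →
      ∃ (l : ι → ι → ℤ[X]) (a0 : ℤ) (a : ι → ℤ), a0 ≠ 0 ∧ |a0| ≤ (B : ℤ) ^ e ∧
        (∀ κ, |a κ| ≤ (B : ℤ) ^ e) ∧ (∀ κ i, (l κ i).natDegree ≤ e) ∧
        (∀ κ i, nm (l κ i) ≤ (H : ℤ) ^ (4 * Fintype.card ι + 1)) ∧
        (∀ κ, X ^ th ∣ ∑ i, l κ i * τ i) ∧
        ∀ i, (a0 : ℚ) * om i = ∑ κ ∈ Γ, (a κ : ℚ) * ev B (l κ i) := by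
    intro e Γ Ψ om ρ hB1 hΨ hρ hev
    refine ⟨0, 1, 0, one_ne_zero, ?_, fun κ => ?_, fun κ i => by simp, fun κ i => ?_,
      fun κ => by simp, fun i => ?_⟩
    · exact_mod_cast Nat.one_le_pow e B hB1
    · simp only [Pi.zero_apply, abs_zero]; positivity
    · simp only [Pi.zero_apply, nm_zero]; positivity
    · have := hev i
      rw [hΨ] at this
      have h2 : (om i : ℚ) = 0 := by simpa [hρ] using this
      simp [h2]
  induction k with
  | zero =>
    intro Γ w Ψ om ρ hi0 hk hw hθ hM hΓ hd hdv hρ hev hom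
    have hH : 1 ≤ H := le_trans (Nat.mul_pos hM1 (by omega)) hM
    have hB1 : 1 ≤ B := le_trans (Nat.mul_pos two_pos (Nat.pow_pos hH)) hB
    refine triv _ Γ Ψ om ρ hB1 (funext fun i => ?_) hρ hev
    rw [card_eq_zero.mp hk] at hΓ
    have hz : ∀ i, i ≠ i0 → Ψ i = 0 := fun i hi => hΓ i (by simpa using hi)
    by_cases hi : i = i0
    · rw [Fintype.sum_eq_single i0 fun i hi => by rw [hz i hi, zero_mul]] at hdv
      rw [hi]
      exact eq_zero_of_order h0 (hd i0) (by omega) hdv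
    · exact hz i hi
  | succ k ih =>
    intro Γ w Ψ om ρ hi0 hk hw hθ hM hΓ hd hdv hρ hev hom
    have hH : 1 ≤ H := le_trans (Nat.mul_pos hM1 (by omega)) hM
    have hB1 : 1 ≤ B := le_trans (Nat.mul_pos two_pos (Nat.pow_pos hH)) hB
    have hB0 : (B : ℚ) ≠ 0 := by positivity
    by_cases hΨ : Ψ = 0
    · exact triv _ Γ Ψ om ρ hB1 hΨ hρ hev
    have h7 : 1 ≤ 7 ^ k := Nat.one_le_pow _ _ (by norm_num)
    have e7 : 7 ^ k * (4 * w) + 3 * w ≤ 7 ^ (k + 1) * w := by rw [pow_succ]; nlinarith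
    have e8 : 4 * w ≤ 7 ^ k * (4 * w) := Nat.le_mul_of_pos_left _ h7
    obtain ⟨l, hl0, hlΓ, hld, hln, hlv⟩ := siegel_poly τ H w th (insert i0 Γ) hτ
      (le_trans (Nat.mul_le_mul_left _ (by omega)) hM) Ψ hΨ hΓ hd hdv
    obtain ⟨γ, hγΓ, hγ⟩ : ∃ γ ∈ Γ, l γ ≠ 0 := by
      by_contra hcon
      push Not at hcon
      have hz : ∀ i, i ≠ i0 → l i = 0 := fun i hi => by
        by_cases h : i ∈ Γ
        · exact hcon i h
        · exact hlΓ i (by simp [hi, h])
      rw [Fintype.sum_eq_single i0 fun i hi => by rw [hz i hi, zero_mul], ← dvd_map_iff,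
        Polynomial.map_mul] at hlv
      have h1 := eq_zero_of_order h0 (natDegree_map_le.trans (hld i0)) (by omega) hlv
      have h2 : l i0 = 0 := (Polynomial.map_eq_zero_iff (RingHom.injective_int _)).mp h1
      refine hl0 (funext fun i => ?_)
      by_cases hi : i = i0
      · rw [hi]; exact h2
      · exact hz i hi
    have hBz : 2 * (H : ℤ) ^ (4 * Fintype.card ι + 1) ≤ B := by exact_mod_cast hB
    have hHp : (0 : ℤ) < (H : ℤ) ^ (4 * Fintype.card ι + 1) := by positivity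
    have hne : ev B (l γ) ≠ 0 := ev_ne_zero hγ (by have := hln γ; linarith)
    choose L hL hLb using fun i => exists_int hB1 (l i) (hld i)
    have hLb' : ∀ i, |L i| ≤ (B : ℤ) ^ (2 * w) * (H : ℤ) ^ (4 * Fintype.card ι + 1) := fun i =>
      (hLb i).trans (mul_le_mul_of_nonneg_left (hln i) (by positivity))
    have hB1z : (1 : ℤ) ≤ B := by exact_mod_cast hB1
    obtain ⟨l', a0, a, ha0, hb0, hb, hd', hn', hv', hfin⟩ := ih (Γ.erase γ) (4 * w)
      (fun i => (l γ).map (Int.castRingHom ℚ) * Ψ i - Ψ γ * (l i).map (Int.castRingHom ℚ))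
      (fun i => L γ * om i - om γ * L i) (ρ * ((B : ℚ) ^ (2 * w))⁻¹)
      (fun h => hi0 (mem_of_mem_erase h)) (by rw [card_erase_of_mem hγΓ, hk]; rfl) (by omega)
      (by omega) (le_trans (Nat.mul_le_mul_left _ (by omega)) hM)
      (fun i hi => by
        by_cases h : i = γ
        · rw [h]; ring
        · have h' : i ∉ insert i0 Γ := by simpa [h] using hi
          simp [hΓ i h', hlΓ i h'])
      (fun i => by
        have a1 := (natDegree_map_le (f := Int.castRingHom ℚ)).trans (hld γ)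
        have a2 := (natDegree_map_le (f := Int.castRingHom ℚ)).trans (hld i)
        have := hd i
        have := hd γ
        exact (natDegree_sub_le _ _).trans
          (max_le (natDegree_mul_le.trans (by omega)) (natDegree_mul_le.trans (by omega))))
      (by
        have h1 := (dvd_map_iff _ _).mpr hlv
        rw [Polynomial.map_sum] at h1
        have h2 := dvd_sub (Dvd.dvd.mul_left hdv ((l γ).map (Int.castRingHom ℚ)))
          (Dvd.dvd.mul_left h1 (Ψ γ))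
        rw [mul_sum, mul_sum, ← sum_sub_distrib] at h2
        convert h2 using 2 with i
        rw [Polynomial.map_mul]; ring)
      (mul_ne_zero hρ (by positivity))
      (fun i => by
        simp only [eval_sub, eval_mul, eval_map_ev, hev]
        push_cast
        rw [hL, hL]; field_simp)
      (fun i => by
        have a1 : |L γ * om i| ≤ (B : ℤ) ^ (2 * w) * (H : ℤ) ^ (4 * Fintype.card ι + 1) * B ^ w := by
          rw [abs_mul]; exact mul_le_mul (hLb' γ) (hom i) (abs_nonneg _) (by positivity)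
        have a2 : |om γ * L i| ≤ (B : ℤ) ^ (2 * w) * (H : ℤ) ^ (4 * Fintype.card ι + 1) * B ^ w := by
          rw [mul_comm, abs_mul]; exact mul_le_mul (hLb' i) (hom γ) (abs_nonneg _) (by positivity)
        calc _ ≤ |L γ * om i| + |om γ * L i| := abs_sub _ _
          _ ≤ (B : ℤ) ^ (3 * w) * (2 * (H : ℤ) ^ (4 * Fintype.card ι + 1)) := by
              have : (B : ℤ) ^ (3 * w) = B ^ (2 * w) * B ^ w := by rw [← pow_add]; congr 1; ring
              rw [this]; linarith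
          _ ≤ (B : ℤ) ^ (3 * w) * B := mul_le_mul_of_nonneg_left hBz (by positivity)
          _ ≤ (B : ℤ) ^ (4 * w) := by rw [← pow_succ]; exact pow_le_pow_right₀ hB1z (by omega))
    have mono : (B : ℤ) ^ (7 ^ k * (4 * w)) * B ^ (3 * w) ≤ B ^ (7 ^ (k + 1) * w) := by
      rw [← pow_add]; exact pow_le_pow_right₀ hB1z e7
    refine ⟨Function.update l' γ l, a0 * L γ, Function.update a γ (a0 * (B ^ (2 * w) * om γ)),
      mul_ne_zero ha0 fun h => ?_, ?_, fun κ => ?_, fun κ i => ?_, fun κ i => ?_, fun κ => ?_,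
      fun i => ?_⟩
    · have := hL γ
      rw [h] at this
      exact mul_ne_zero (pow_ne_zero _ hB0) hne (by simpa using this.symm)
    · rw [abs_mul]
      refine le_trans (mul_le_mul hb0 ((hLb' γ).trans ?_) (abs_nonneg _) (by positivity)) mono
      calc _ ≤ (B : ℤ) ^ (2 * w) * B := mul_le_mul_of_nonneg_left (by linarith) (by positivity)
        _ ≤ _ := by rw [← pow_succ]; exact pow_le_pow_right₀ hB1z (by omega)
    · by_cases h : κ = γ
      · rw [h, Function.update_self, abs_mul]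
        refine le_trans (mul_le_mul hb0 ?_ (abs_nonneg _) (by positivity)) mono
        rw [abs_mul, abs_of_nonneg (by positivity : (0 : ℤ) ≤ B ^ (2 * w)),
          show 3 * w = 2 * w + w by ring, pow_add]
        exact mul_le_mul_of_nonneg_left (hom γ) (by positivity)
      · rw [Function.update_of_ne h]
        exact (hb κ).trans (pow_le_pow_right₀ hB1z (by omega))
    · by_cases h : κ = γ
      · rw [h, Function.update_self]; exact (hld i).trans (by omega)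
      · rw [Function.update_of_ne h]; exact (hd' κ i).trans (by omega)
    · by_cases h : κ = γ
      · rw [h, Function.update_self]; exact hln i
      · rw [Function.update_of_ne h]; exact hn' κ i
    · by_cases h : κ = γ
      · rw [h, Function.update_self]; exact hlv
      · rw [Function.update_of_ne h]; exact hv' κ
    · rw [← add_sum_erase _ _ hγΓ, Function.update_self, Function.update_self,
        sum_congr rfl fun κ hκ => by
          rw [Function.update_of_ne (ne_of_mem_erase hκ), Function.update_of_ne (ne_of_mem_erase hκ)],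
        ← hfin i]
      push_cast
      rw [hL i]; ring

/-- LIFT -/
theorem lift {ι : Type} [Fintype ι] [DecidableEq ι] (τ : ι → ℤ[X]) (om : ι → ℤ) (i0 : ι)
    (B H u θ th c : ℕ) (hc : c = 7 ^ Fintype.card ι * (2 * u + 2))
    (hτ : ∀ i, nm (τ i) ≤ H) (hom : ∀ i, |om i| ≤ (B : ℤ) ^ u)
    (hs : |∑ i, (om i : ℚ) * ev B (τ i)| ≤ ((B : ℚ)⁻¹) ^ th)
    (h0 : ¬ X ^ (θ + 1) ∣ τ i0) (hθ : θ + c < th)
    (hM : Fintype.card ι * (2 * c + 1) ≤ H) (hB : H ^ (4 * Fintype.card ι + 5) ≤ B) :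
    ∃ (l : ι → ι → ℤ[X]) (a0 : ℤ) (a : ι → ℤ), a0 ≠ 0 ∧ |a0| ≤ (B : ℤ) ^ c ∧
      (∀ κ, |a κ| ≤ (B : ℤ) ^ c) ∧ (∀ κ i, (l κ i).natDegree ≤ c) ∧
      (∀ κ i, nm (l κ i) ≤ (H : ℤ) ^ (4 * Fintype.card ι + 1)) ∧
      (∀ κ, X ^ th ∣ ∑ i, l κ i * τ i) ∧
      ∀ i, (a0 : ℚ) * om i = ∑ κ ∈ univ.erase i0, (a κ : ℚ) * ev B (l κ i) := by
  have hM1 : 1 ≤ Fintype.card ι := Fintype.card_pos_iff.mpr ⟨i0⟩
  have h7 : 7 ^ (Fintype.card ι - 1) * (2 * u + 2) ≤ c :=
    hc ▸ Nat.mul_le_mul_right _ (Nat.pow_le_pow_right (by norm_num) (by omega))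
  have h8 : 2 * u + 2 ≤ c := hc ▸ Nat.le_mul_of_pos_left _ (by positivity)
  have hM2 : Fintype.card ι * (2 * u + 2) + 2 ≤ H := by nlinarith
  have hH : 2 ≤ H := by omega
  have hB1 : 1 ≤ B := (Nat.one_le_pow _ _ (by omega)).trans hB
  have hB1z : (1 : ℤ) ≤ B := by exact_mod_cast hB1
  obtain ⟨Ψ, hd, hv, hev⟩ := lift1 τ om B H u th hτ hom hs hM2 hB
  obtain ⟨l, a0, a, h1, h2, h3, h4, h5, h6, h7'⟩ := lift2 τ i0 B H θ th hτ h0
    (by
      refine le_trans ?_ hB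
      calc 2 * H ^ (4 * Fintype.card ι + 1) ≤ H * H ^ (4 * Fintype.card ι + 1) :=
            Nat.mul_le_mul_right _ hH
        _ = H ^ (4 * Fintype.card ι + 2) := by ring
        _ ≤ _ := Nat.pow_le_pow_right (by omega) (by omega))
    (Fintype.card ι - 1) (univ.erase i0) (2 * u + 2) Ψ om _ (notMem_erase _ _)
    (by rw [card_erase_of_mem (mem_univ _), card_univ]) (by omega) (by omega)
    (le_trans (Nat.mul_le_mul_left _ (by omega)) hM) (fun i hi => by simp at hi) hd hv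
    (by positivity) hev (fun i => (hom i).trans (pow_le_pow_right₀ hB1z (by omega)))
  exact ⟨l, a0, a, h1, h2.trans (pow_le_pow_right₀ hB1z h7),
    fun κ => (h3 κ).trans (pow_le_pow_right₀ hB1z h7), fun κ i => (h4 κ i).trans h7, h5, h6, h7'⟩

end Pool.Agent.EABLift
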