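import Mathlib

open Matrix Module

namespace Pool.Agent.EABSR

attribute [local instance] Matrix.seminormedAddCommGroup

/-- Siegel's lemma when the kernel is known to have dimension at least `r`. -/
theorem siegel_rank {α β : Type} [Fintype α] [Fintype β] (A : Matrix α β ℤ) (H e r : ℕ)
    (hH : ∀ i j, |A i j| ≤ H) (h1 : 1 ≤ H) (K : Submodule ℚ (β → ℚ))
    (hK : ∀ x ∈ K, (A.map (Int.cast : ℤ → ℚ)) *ᵥ x = 0) (hr : r ≤ finrank ℚ K) (hr0 : 0 < r)
    (he : Fintype.card β ≤ e * r) :
    ∃ t : β → ℤ, t ≠ 0 ∧ A *ᵥ t = 0 ∧ ∀ j, |t j| ≤ ((Fintype.card β * H) ^ e : ℕ) := by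
  classical
  set Q : Matrix α β ℚ := A.map (Int.cast : ℤ → ℚ) with hQ
  have hKn : finrank ℚ K ≤ finrank ℚ (LinearMap.ker Q.mulVecLin) :=
    Submodule.finrank_mono fun x hx => by simpa using hK x hx
  have hrk : Q.rank + finrank ℚ (LinearMap.ker Q.mulVecLin) = Fintype.card β := by
    have := LinearMap.finrank_range_add_finrank_ker Q.mulVecLin
    simpa [Matrix.rank] using this
  obtain ⟨b, hbs, hsp, hli⟩ := exists_linearIndependent ℚ (Set.range Q.row)
  have hfin : b.Finite := (Set.finite_range _).subset hbs
  let _ : Fintype b := hfin.fintype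
  have hcard : Fintype.card b = Q.rank := by
    rw [Matrix.rank_eq_finrank_span_row, ← hsp, finrank_span_set_eq_card hli]
    simp
  choose ρ hρ using fun v : b => hbs v.2
  have hker : ∀ t : β → ℤ, (∀ v : b, A (ρ v) ⬝ᵥ t = 0) → A *ᵥ t = 0 := by
    intro t ht
    funext i
    have hmem : Q.row i ∈ Submodule.span ℚ b := by
      rw [hsp]; exact Submodule.subset_span ⟨i, rfl⟩
    have key : ∀ w ∈ Submodule.span ℚ b, w ⬝ᵥ (fun j => (t j : ℚ)) = 0 := by
      intro w hw
      induction hw using Submodule.span_induction with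
      | mem w hw =>
        have h := ht ⟨w, hw⟩
        have h2 := hρ ⟨w, hw⟩
        simp only at h2
        rw [← h2]
        simp only [dotProduct, Matrix.row, hQ, Matrix.map_apply] at h ⊢
        exact_mod_cast h
      | zero => simp
      | add x y _ _ hx hy => rw [add_dotProduct, hx, hy, add_zero]
      | smul a x _ hx => rw [smul_dotProduct, hx, smul_zero]
    have h := key _ hmem
    simp only [dotProduct, Matrix.row, hQ, Matrix.map_apply] at h
    simp only [Matrix.mulVec, dotProduct, Pi.zero_apply]
    exact_mod_cast h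
  have hn : 0 < Fintype.card β := by omega
  have hone : 1 ≤ Fintype.card β * H := Nat.mul_pos hn h1
  rcases Nat.eq_zero_or_pos (Fintype.card b) with h0 | h0
  · obtain ⟨j0⟩ := Fintype.card_pos_iff.mp hn
    have : IsEmpty b := Fintype.card_eq_zero_iff.mp h0
    refine ⟨Pi.single j0 1, ?_, hker _ fun v => isEmptyElim v, fun j => ?_⟩
    · intro h; simpa using congrFun h j0
    · have : (1 : ℤ) ≤ ((Fintype.card β * H) ^ e : ℕ) := by exact_mod_cast Nat.one_le_pow _ _ hone
      by_cases hj : j = j0
      · subst hj; simpa using this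
      · simp only [Pi.single_eq_of_ne hj, abs_zero]; positivity
  · let A' : Matrix b β ℤ := fun v j => A (ρ v) j
    have hlt : Fintype.card b + r ≤ Fintype.card β := by omega
    obtain ⟨t, ht0, ht, hb⟩ := Int.Matrix.exists_ne_zero_int_vec_norm_le A' (by omega) h0
    refine ⟨t, ht0, hker t fun v => congrFun ht v, fun j => ?_⟩
    have hA' : ‖A'‖ ≤ H := by
      rw [Matrix.norm_le_iff (by positivity)]
      intro v j
      rw [Int.norm_eq_abs]; exact_mod_cast hH _ _
    have h1' : (1 : ℝ) ≤ H := by exact_mod_cast h1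
    have hn' : (1 : ℝ) ≤ Fintype.card β := by exact_mod_cast hn
    have hbase : (Fintype.card β : ℝ) * max 1 ‖A'‖ ≤ Fintype.card β * H :=
      mul_le_mul_of_nonneg_left (max_le h1' hA') (by positivity)
    have hlt' : (Fintype.card b : ℝ) + r ≤ Fintype.card β := by exact_mod_cast hlt
    have hr' : (0 : ℝ) < r := by exact_mod_cast hr0
    have he' : (Fintype.card β : ℝ) ≤ e * r := by exact_mod_cast he
    have hexp : (Fintype.card b : ℝ) / (Fintype.card β - Fintype.card b) ≤ e := by
      rw [div_le_iff₀ (by linarith)]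
      have : (0 : ℝ) ≤ e := by positivity
      nlinarith
    have hfinal : ‖t j‖ ≤ ((Fintype.card β : ℝ) * H) ^ (e : ℝ) :=
      (norm_le_pi_norm t j).trans (hb.trans
        ((Real.rpow_le_rpow (by positivity) hbase
            (div_nonneg (by positivity) (by linarith))).trans
          (Real.rpow_le_rpow_of_exponent_le (by nlinarith) hexp)))
    rw [Real.rpow_natCast, Int.norm_eq_abs] at hfinal
    exact_mod_cast hfinal

/-- SMALL: if every small integer relation among the `z t` also kills `G`, then `G` is a linear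
function of `z`. -/
theorem small {T N : Type} [Fintype N] (z : T → N → ℤ) (G : T → ℤ) (H : ℕ)
    (hz : ∀ t j, |z t j| ≤ H) (h1 : 1 ≤ H)
    (h : ∀ (β : Type) [Fintype β] (e : β → T) (c : β → ℤ), Fintype.card β ≤ Fintype.card N + 1 →
      (∀ x, |c x| ≤ (((Fintype.card N + 1) * H) ^ (Fintype.card N + 1) : ℕ)) →
      (∀ j, ∑ x, c x * z (e x) j = 0) → ∑ x, c x * G (e x) = 0) :
    ∃ lam : N → ℚ, ∀ t, (G t : ℚ) = ∑ j, lam j * z t j := by
  classical
  let v : T → N → ℚ := fun t j => z t j
  obtain ⟨I, hI, hmax⟩ := exists_maximal_linearIndepOn' ℚ v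
  have hI' : LinearIndependent ℚ (fun x : I => v x) := hI
  have : Finite I := hI'.finite_of_isNoetherian
  let _ : Fintype I := Fintype.ofFinite I
  have hc : Fintype.card I ≤ Fintype.card N := by simpa using hI'.fintype_card_le_finrank
  obtain ⟨g, hg⟩ := LinearMap.exists_extend
    ((Basis.span hI').constr ℚ (fun x : I => (G x : ℚ)))
  have hgI : ∀ x : I, g (v x) = G x := by
    intro x
    have h2 := LinearMap.congr_fun hg (Basis.span hI' x)
    rw [Basis.constr_basis] at h2
    simpa [Basis.span_apply] using h2
  have hall : ∀ t, g (v t) = G t := by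
    intro t
    by_cases ht : t ∈ I
    · exact hgI ⟨t, ht⟩
    let e : Option I → T := fun o => o.elim t Subtype.val
    have hdep : ¬ LinearIndependent ℚ (fun o : Option I => v (e o)) := by
      intro hli
      have h3 : LinearIndepOn ℚ v (insert t I) := by
        rw [linearIndependent_option] at hli
        refine (linearIndepOn_insert ht).mpr ⟨hI, ?_⟩
        have h4 : Set.range ((fun o : Option I => v (e o)) ∘ some) = v '' I := by
          ext w; simp [e]
        simpa [h4, e] using hli.2
      exact ht ((hmax _ (Set.subset_insert t I) h3).symm ▸ Set.mem_insert t I)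
    obtain ⟨x, hx, i, hi⟩ := Fintype.not_linearIndependent_iff.mp hdep
    have hx0 : x ≠ 0 := fun h0 => hi (congrFun h0 i)
    let A : Matrix N (Option I) ℤ := fun j o => z (e o) j
    have hcard : Fintype.card (Option I) ≤ Fintype.card N + 1 := by simpa using hc
    obtain ⟨c, hc0, hcA, hcb⟩ := siegel_rank A H (Fintype.card N + 1) 1 (fun j o => hz _ _) h1
      (ℚ ∙ x) (by
        intro y hy
        obtain ⟨a, rfl⟩ := Submodule.mem_span_singleton.mp hy
        rw [Matrix.mulVec_smul]
        have : A.map (Int.cast : ℤ → ℚ) *ᵥ x = 0 := by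
          funext j
          have := congrFun hx j
          simpa [Matrix.mulVec, dotProduct, A, v, Finset.sum_apply, mul_comm] using this
        rw [this, smul_zero]) (finrank_span_singleton hx0).ge one_pos (by simpa using hc)
    have hrel : ∀ j, ∑ o, c o * z (e o) j = 0 := fun j => by
      simpa [Matrix.mulVec, dotProduct, A, mul_comm] using congrFun hcA j
    have hG := h (Option I) e c hcard (fun o => (hcb o).trans (by
      exact_mod_cast Nat.pow_le_pow_left (Nat.mul_le_mul_right _ hcard) _)) hrel
    have hv : ∑ o, (c o : ℚ) • v (e o) = 0 := by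
      funext j
      have : ((∑ o, c o * z (e o) j : ℤ) : ℚ) = 0 := by rw [hrel j]; simp
      simpa [Finset.sum_apply, v] using this
    have hcn : c none ≠ 0 := by
      intro h0
      rw [Fintype.sum_option, h0] at hv
      have h5 := Fintype.linearIndependent_iff.mp hI' (fun x => (c (some x) : ℚ)) (by simpa [e] using hv)
      refine hc0 (funext fun o => ?_)
      cases o with
      | none => exact h0
      | some x => exact_mod_cast h5 x
    have h6 : ∑ o, (c o : ℚ) * g (v (e o)) = 0 := by
      have := congrArg g hv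
      simpa [map_sum] using this
    have h7 : ∑ o, (c o : ℚ) * G (e o) = 0 := by exact_mod_cast hG
    rw [Fintype.sum_option] at h6 h7
    have h8 : ∑ x : I, (c (some x) : ℚ) * g (v (e (some x))) = ∑ x : I, (c (some x) : ℚ) * G (e (some x)) :=
      Finset.sum_congr rfl fun x _ => by rw [show e (some x) = x from rfl, hgI]
    have h9 : (c none : ℚ) * g (v t) = c none * G t := by
      have e0 : e none = t := rfl
      rw [e0] at h6 h7; linarith
    exact mul_left_cancel₀ (by exact_mod_cast hcn) h9
  refine ⟨fun j => g fun k => if j = k then 1 else 0, fun t => ?_⟩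
  rw [← hall t, LinearMap.pi_apply_eq_sum_univ]
  simp [v, mul_comm]

end Pool.Agent.EABSR
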