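import Pool.Agent.EABL.Nm
import Pool.Agent.EABL.SR

open Polynomial Finset

namespace Pool.Agent.EABLift

open EABNm EABSR

/-- carries -/
def carry (B : ℤ) (f : ℕ → ℤ) : ℕ → ℤ
  | 0 => f 0
  | t + 1 => B * carry B f t + f (t + 1)

theorem carry_eq {B : ℕ} (hB : 1 ≤ B) (f : ℕ → ℤ) (t : ℕ) :
    (carry B f t : ℚ) = (B : ℚ) ^ t * ∑ s ∈ range (t + 1), (f s : ℚ) * ((B : ℚ)⁻¹) ^ s := by
  have hB' : (B : ℚ) ≠ 0 := by positivity
  induction t with
  | zero => simp [carry]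
  | succ t ih =>
    rw [carry, sum_range_succ _ (t + 1), mul_add]
    push_cast
    rw [ih, inv_pow]
    field_simp
    ring

theorem carry_approx {B : ℕ} (hB : 1 ≤ B) (F : ℤ[X]) (t J : ℕ) :
    |(carry B F.coeff t : ℚ) + ∑ j ∈ range J, (F.coeff (t + 1 + j) : ℚ) * ((B : ℚ)⁻¹) ^ (j + 1)|
      ≤ (B : ℚ) ^ t * |ev B F| + nm F * ((B : ℚ)⁻¹) ^ (J + 1) := by
  have hB' : (1 : ℚ) ≤ B := by exact_mod_cast hB
  have hB0 : (B : ℚ) ≠ 0 := by positivity
  have e1 := ev_eq B F (N := t + 1 + J + (F.natDegree + 1)) (by omega)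
  rw [sum_range_add, sum_range_add] at e1
  have e2 : (carry B F.coeff t : ℚ)
      + ∑ j ∈ range J, (F.coeff (t + 1 + j) : ℚ) * ((B : ℚ)⁻¹) ^ (j + 1)
      = (B : ℚ) ^ t * ev B F - ∑ k ∈ range (F.natDegree + 1),
          (F.coeff (t + 1 + J + k) : ℚ) * ((B : ℚ)⁻¹) ^ (J + 1 + k) := by
    rw [e1, carry_eq hB, mul_add, mul_add, mul_sum (range J), mul_sum (range (F.natDegree + 1))]
    have a1 : ∀ j, (B : ℚ) ^ t * ((F.coeff (t + 1 + j) : ℚ) * ((B : ℚ)⁻¹) ^ (t + 1 + j))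
        = (F.coeff (t + 1 + j) : ℚ) * ((B : ℚ)⁻¹) ^ (j + 1) := fun j => by
      rw [inv_pow, inv_pow]; field_simp; ring
    have a2 : ∀ k, (B : ℚ) ^ t * ((F.coeff (t + 1 + J + k) : ℚ) * ((B : ℚ)⁻¹) ^ (t + 1 + J + k))
        = (F.coeff (t + 1 + J + k) : ℚ) * ((B : ℚ)⁻¹) ^ (J + 1 + k) := fun k => by
      rw [inv_pow, inv_pow]; field_simp; ring
    simp only [a1, a2]; ring
  rw [e2]
  refine (abs_sub _ _).trans (add_le_add (by rw [abs_mul, abs_of_nonneg (by positivity)]) ?_)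
  have h2 : ∑ k ∈ range (F.natDegree + 1), |F.coeff (t + 1 + J + k)| ≤ nm F := by
    have := sum_le_nm F (range (t + 1 + J + (F.natDegree + 1)))
    rw [sum_range_add] at this
    have h0 : 0 ≤ ∑ k ∈ range (t + 1 + J), |F.coeff k| := sum_nonneg fun _ _ => abs_nonneg _
    linarith
  have h3 : ((∑ k ∈ range (F.natDegree + 1), |F.coeff (t + 1 + J + k)| : ℤ) : ℚ) ≤ nm F := by
    exact_mod_cast h2
  refine (abs_sum_le_sum_abs _ _).trans (le_trans ?_ (mul_le_mul_of_nonneg_right h3 (by positivity)))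
  push_cast
  rw [sum_mul]
  refine sum_le_sum fun k _ => ?_
  rw [abs_mul]
  refine mul_le_mul_of_nonneg_left ?_ (abs_nonneg _)
  rw [abs_of_nonneg (by positivity)]
  exact pow_le_pow_of_le_one (by positivity) (inv_le_one_of_one_le₀ hB') (by omega)

theorem nm_X_pow_mul (J : ℕ) (f : ℤ[X]) : nm (X ^ J * f) ≤ nm f := by
  refine (nm_mul _ _).trans (le_of_eq ?_)
  rw [X_pow_eq_monomial, nm_monomial]; simp

/-- LIFT (1): a numerical relation at `1/B` comes from a formal relation of bounded degree. -/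
theorem lift1 {ι : Type} [Fintype ι] (τ : ι → ℤ[X]) (om : ι → ℤ) (B H u th : ℕ)
    (hτ : ∀ i, nm (τ i) ≤ H) (hom : ∀ i, |om i| ≤ (B : ℤ) ^ u)
    (hs : |∑ i, (om i : ℚ) * ev B (τ i)| ≤ ((B : ℚ)⁻¹) ^ th)
    (hM : Fintype.card ι * (2 * u + 2) + 2 ≤ H) (hB : H ^ (4 * Fintype.card ι + 5) ≤ B) :
    ∃ Ψ : ι → ℚ[X], (∀ i, (Ψ i).natDegree ≤ 2 * u + 2) ∧
      X ^ th ∣ ∑ i, Ψ i * (τ i).map (Int.castRingHom ℚ) ∧
      ∀ i, (Ψ i).eval ((B : ℚ)⁻¹) = ((B : ℚ)⁻¹) ^ (2 * u + 2) * om i := by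
  classical
  set J := 2 * u + 2 with hJ
  set M := Fintype.card ι with hMd
  have hH : 2 ≤ H := by omega
  have hB1 : 1 ≤ B := (Nat.one_le_pow _ _ (by omega)).trans hB
  have hB' : (1 : ℚ) ≤ B := by exact_mod_cast hB1
  have hB0 : (B : ℚ) ≠ 0 := by positivity
  have hβ : (0 : ℚ) < (B : ℚ)⁻¹ := by positivity
  have hβ1 : (B : ℚ)⁻¹ ≤ 1 := inv_le_one_of_one_le₀ hB'
  let F : ℤ[X] := ∑ i, C (om i) * (X ^ J * τ i)
  let z : Fin th → ι × Fin J → ℤ := fun t p => (X ^ J * τ p.1).coeff (t + 1 + p.2)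
  have hFc : ∀ s, F.coeff s = ∑ i, om i * (X ^ J * τ i).coeff s := fun s => by
    simp only [F, finsetSum_coeff, coeff_C_mul]
  have hMH : M * H ≤ B := by
    have : M ≤ H := by nlinarith
    calc M * H ≤ H ^ 2 := by nlinarith
      _ ≤ H ^ (4 * M + 5) := Nat.pow_le_pow_right (by omega) (by omega)
      _ ≤ B := hB
  have hnF : nm F ≤ (B : ℤ) ^ (u + 1) := by
    refine (nm_sum _ _).trans ((sum_le_card_nsmul _ _ ((B : ℤ) ^ u * H) fun i _ => ?_).trans ?_)
    · refine (nm_mul _ _).trans ?_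
      rw [nm_C]
      exact mul_le_mul (hom i) ((nm_X_pow_mul _ _).trans (hτ i)) (nm_nonneg _) (by positivity)
    · have : ((M * H : ℕ) : ℤ) ≤ B := by exact_mod_cast hMH
      rw [card_univ, ← hMd, nsmul_eq_mul, pow_succ]
      push_cast at this
      have h0 : (0 : ℤ) ≤ (B : ℤ) ^ u := by positivity
      nlinarith
  have hev : |ev B F| ≤ ((B : ℚ)⁻¹) ^ J * ((B : ℚ)⁻¹) ^ th := by
    have : ev B F = ((B : ℚ)⁻¹) ^ J * ∑ i, (om i : ℚ) * ev B (τ i) := by
      simp only [F, ev_sum, ev_mul, ev_C, ev_X_pow, mul_sum]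
      exact sum_congr rfl fun i _ => by ring
    rw [this, abs_mul, abs_of_nonneg (by positivity)]
    exact mul_le_mul_of_nonneg_left hs (by positivity)
  have happ : ∀ t : Fin th, |(carry B F.coeff t : ℚ)
      + ∑ j ∈ range J, (F.coeff (t + 1 + j) : ℚ) * ((B : ℚ)⁻¹) ^ (j + 1)|
      ≤ 2 * ((B : ℚ)⁻¹) ^ (u + 1) := by
    intro t
    refine (carry_approx hB1 F t J).trans ?_
    have b1 : (B : ℚ) ^ (t : ℕ) * |ev B F| ≤ ((B : ℚ)⁻¹) ^ (u + 1) := by
      have c1 : (B : ℚ) ^ (t : ℕ) * ((B : ℚ)⁻¹) ^ th ≤ 1 := by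
        rw [inv_pow, ← div_eq_mul_inv, div_le_one (by positivity)]
        exact pow_le_pow_right₀ hB' t.2.le
      have c2 : ((B : ℚ)⁻¹) ^ J ≤ ((B : ℚ)⁻¹) ^ (u + 1) :=
        pow_le_pow_of_le_one hβ.le hβ1 (by omega)
      calc _ ≤ (B : ℚ) ^ (t : ℕ) * (((B : ℚ)⁻¹) ^ J * ((B : ℚ)⁻¹) ^ th) :=
            mul_le_mul_of_nonneg_left hev (by positivity)
        _ = ((B : ℚ)⁻¹) ^ J * ((B : ℚ) ^ (t : ℕ) * ((B : ℚ)⁻¹) ^ th) := by ring
        _ ≤ ((B : ℚ)⁻¹) ^ (u + 1) * 1 := mul_le_mul c2 c1 (by positivity) (by positivity)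
        _ = _ := mul_one _
    have b2 : (nm F : ℚ) * ((B : ℚ)⁻¹) ^ (J + 1) ≤ ((B : ℚ)⁻¹) ^ (u + 1) := by
      have c1 : (nm F : ℚ) ≤ (B : ℚ) ^ (u + 1) := by exact_mod_cast hnF
      calc _ ≤ (B : ℚ) ^ (u + 1) * ((B : ℚ)⁻¹) ^ (J + 1) :=
            mul_le_mul_of_nonneg_right c1 (by positivity)
        _ = ((B : ℚ)⁻¹) ^ (u + 2) := by
            rw [hJ, inv_pow, inv_pow]; field_simp; ring
        _ ≤ _ := pow_le_pow_of_le_one hβ.le hβ1 (by omega)
    linarith
  have hN : Fintype.card (ι × Fin J) = M * J := by simp [hMd]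
  obtain ⟨lam, hlam⟩ := small z (fun t => carry B F.coeff t) H
    (fun t p => (coeff_le_nm _ _).trans ((nm_X_pow_mul _ _).trans (hτ _))) (by omega) (by
      intro β _ e c hc hcb hrel
      rw [hN] at hc hcb
      set A : ℕ := ((M * J + 1) * H) ^ (M * J + 1) with hA
      have hz : ∑ x, (c x : ℚ) * ∑ j ∈ range J,
          (F.coeff (e x + 1 + j) : ℚ) * ((B : ℚ)⁻¹) ^ (j + 1) = 0 := by
        simp only [mul_sum]
        rw [sum_comm]
        refine sum_eq_zero fun j hj => ?_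
        have : ∑ x, c x * F.coeff (e x + 1 + j) = 0 := by
          simp only [hFc, mul_sum]
          rw [sum_comm]
          refine sum_eq_zero fun i _ => ?_
          have := hrel (i, ⟨j, mem_range.mp hj⟩)
          simp only [z] at this
          rw [← mul_zero (om i), ← this, mul_sum]
          exact sum_congr rfl fun x _ => by ring
        have h2 : ∑ x, (c x : ℚ) * F.coeff (e x + 1 + j) = 0 := by exact_mod_cast this
        rw [← zero_mul (((B : ℚ)⁻¹) ^ (j + 1)), ← h2, sum_mul]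
        exact sum_congr rfl fun x _ => by ring
      have hlt : |((∑ x, c x * carry B F.coeff (e x) : ℤ) : ℚ)| < 1 := by
        push_cast
        rw [← add_zero (∑ x, _), ← hz, ← sum_add_distrib]
        refine (abs_sum_le_sum_abs _ _).trans_lt
          ((sum_le_card_nsmul _ _ ((A : ℚ) * (2 * ((B : ℚ)⁻¹) ^ (u + 1))) fun x _ => ?_).trans_lt ?_)
        · rw [← mul_add, abs_mul]
          exact mul_le_mul (by exact_mod_cast hcb x) (happ _) (abs_nonneg _) (by positivity)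
        · have k1 : Fintype.card β * A * 2 < B ^ (u + 1) := by
            have m1 : M * J + 1 ≤ H := by omega
            calc Fintype.card β * A * 2 ≤ H * (H * H) ^ (M * J + 1) * H :=
                  Nat.mul_le_mul (Nat.mul_le_mul (hc.trans m1)
                    (Nat.pow_le_pow_left (Nat.mul_le_mul_right _ m1) _)) hH
              _ = H ^ (2 * (M * J) + 4) := by rw [← sq, ← pow_mul]; ring
              _ < H ^ ((4 * M + 5) * (u + 1)) :=
                  Nat.pow_lt_pow_right (by omega) (by rw [hJ]; nlinarith)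
              _ ≤ B ^ (u + 1) := by rw [pow_mul]; exact Nat.pow_le_pow_left hB _
          have k2 : (Fintype.card β : ℚ) * A * 2 < (B : ℚ) ^ (u + 1) := by exact_mod_cast k1
          rw [card_univ, nsmul_eq_mul, inv_pow, ← mul_assoc, ← mul_assoc, ← div_eq_mul_inv,
            div_lt_one (by positivity)]
          exact k2
      have : |∑ x, c x * carry B F.coeff (e x)| < 1 := by exact_mod_cast hlt
      exact Int.abs_lt_one_iff.mp this)
  let q : ι → ℚ[X] := fun i => ∑ j : Fin J, C (lam (i, j)) * X ^ (J - 1 - j)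
  let Λ : ℚ[X] := ∑ i, q i * (τ i).map (Int.castRingHom ℚ)
  have hΛ : ∀ t, t < th → Λ.coeff t = carry B F.coeff t := by
    intro t ht
    rw [hlam ⟨t, ht⟩, Fintype.sum_prod_type]
    simp only [Λ, q, sum_mul, finsetSum_coeff, mul_assoc, coeff_C_mul]
    refine sum_congr rfl fun i _ => sum_congr rfl fun j _ => ?_
    have e1 : (X : ℤ[X]) ^ J * τ i = X ^ (1 + (j : ℕ)) * (X ^ (J - 1 - (j : ℕ)) * τ i) := by
      rw [← mul_assoc, ← pow_add]; congr 2; have := j.2; omega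
    simp only [z]
    rw [e1, add_assoc, coeff_X_pow_mul]
    have e2 : (X : ℚ[X]) ^ (J - 1 - j) * (τ i).map (Int.castRingHom ℚ)
        = (X ^ (J - 1 - j) * τ i).map (Int.castRingHom ℚ) := by simp
    rw [e2, coeff_map]; simp
  refine ⟨fun i => C (om i : ℚ) * X ^ J - (1 - X * C (B : ℚ)) * q i, fun i => ?_, ?_, fun i => ?_⟩
  · refine (natDegree_sub_le _ _).trans (max_le (natDegree_C_mul_X_pow_le _ _) ?_)
    have d1 : (1 - X * C (B : ℚ) : ℚ[X]).natDegree ≤ 1 := by compute_degree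
    have d2 : (q i).natDegree ≤ J - 1 :=
      natDegree_sum_le_of_forall_le _ _ fun j _ => (natDegree_C_mul_X_pow_le _ _).trans (by omega)
    exact natDegree_mul_le.trans (by omega)
  · have e : ∑ i, (C (om i : ℚ) * X ^ J - (1 - X * C (B : ℚ)) * q i) * (τ i).map (Int.castRingHom ℚ)
        = F.map (Int.castRingHom ℚ) - Λ + X * (C (B : ℚ) * Λ) := by
      simp only [F, Λ, Polynomial.map_sum, mul_sum, ← sum_sub_distrib, ← sum_add_distrib]
      refine sum_congr rfl fun i _ => ?_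
      simp only [Polynomial.map_mul, Polynomial.map_pow, map_X, eq_intCast, map_intCast,
        Polynomial.map_intCast]
      ring
    rw [e, X_pow_dvd_iff]
    intro t ht
    rw [coeff_add, coeff_sub, coeff_map, hΛ t ht]
    cases t with
    | zero => simp [carry]
    | succ t => rw [coeff_X_mul, coeff_C_mul, hΛ t (by omega)]; simp [carry]
  · simp [hB0, mul_comm]

end Pool.Agent.EABLift
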