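import Mathlib

namespace Pool.Agent.EABLv

/-- tower of `k` exponentials in base 2 -/
def tw : ℕ → ℕ → ℕ
  | 0, x => x
  | k+1, x => 2 ^ tw k x

/-- `f` is bounded by a tower of height `k` on top of a polynomial -/
def Lv (k : ℕ) (f : ℕ → ℕ) : Prop := ∃ c : ℕ, ∀ x, f x ≤ tw k ((x + 2) ^ (c + 1))

theorem tw_mono (k : ℕ) {x y : ℕ} (h : x ≤ y) : tw k x ≤ tw k y := by
  induction k with
  | zero => exact h
  | succ k ih => exact Nat.pow_le_pow_right (by norm_num) ih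

theorem le_tw (k x : ℕ) : x ≤ tw k x := by
  induction k with
  | zero => exact le_rfl
  | succ k ih => exact ih.trans (Nat.lt_two_pow_self).le

theorem tw_mul (k : ℕ) {x y : ℕ} (hx : 2 ≤ x) (hy : 2 ≤ y) : tw k x * tw k y ≤ tw k (x * y) := by
  induction k with
  | zero => exact le_rfl
  | succ k ih =>
    show 2 ^ tw k x * 2 ^ tw k y ≤ 2 ^ tw k (x * y)
    rw [← pow_add]
    exact Nat.pow_le_pow_right (by norm_num)
      ((Nat.add_le_mul (hx.trans (le_tw k x)) (hy.trans (le_tw k y))).trans ih)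

theorem two_le (x c : ℕ) : 2 ≤ (x + 2) ^ (c + 1) :=
  (Nat.le_add_left 2 x).trans (Nat.le_self_pow (Nat.succ_ne_zero c) _)

theorem tw_mul' (k x a c : ℕ) :
    tw k ((x + 2) ^ (a + 1)) * tw k ((x + 2) ^ (c + 1)) ≤ tw k ((x + 2) ^ (a + c + 1 + 1)) := by
  refine (tw_mul k (two_le x a) (two_le x c)).trans (le_of_eq ?_)
  rw [← pow_add]; congr 2; ring

theorem Lv.of_le {k : ℕ} {f g : ℕ → ℕ} (hg : Lv k g) (h : ∀ x, f x ≤ g x) : Lv k f := by
  obtain ⟨c, hc⟩ := hg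
  exact ⟨c, fun x => (h x).trans (hc x)⟩

theorem Lv.up {k : ℕ} {f : ℕ → ℕ} (h : Lv k f) : Lv (k + 1) f := by
  obtain ⟨c, hc⟩ := h
  exact ⟨c, fun x => (hc x).trans (Nat.lt_two_pow_self).le⟩

theorem Lv.const (k a : ℕ) : Lv k (fun _ => a) :=
  ⟨a, fun x => le_trans (le_trans (Nat.lt_two_pow_self (n := a)).le
    ((Nat.pow_le_pow_left (Nat.le_add_left 2 x) a).trans
      (Nat.pow_le_pow_right (by omega) (Nat.le_succ a)))) (le_tw k _)⟩

theorem Lv.id (k : ℕ) : Lv k (fun x => x) :=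
  ⟨0, fun x => le_trans (by simp) (le_tw k _)⟩

theorem Lv.mul {k : ℕ} {f g : ℕ → ℕ} (hf : Lv k f) (hg : Lv k g) : Lv k (fun x => f x * g x) := by
  obtain ⟨a, ha⟩ := hf
  obtain ⟨c, hc⟩ := hg
  exact ⟨a + c + 1, fun x => (Nat.mul_le_mul (ha x) (hc x)).trans (tw_mul' k x a c)⟩

theorem Lv.add {k : ℕ} {f g : ℕ → ℕ} (hf : Lv k f) (hg : Lv k g) : Lv k (fun x => f x + g x) := by
  obtain ⟨a, ha⟩ := hf
  obtain ⟨c, hc⟩ := hg
  exact ⟨a + c + 1, fun x => ((Nat.add_le_add (ha x) (hc x)).trans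
    (Nat.add_le_mul ((two_le x a).trans (le_tw k _)) ((two_le x c).trans (le_tw k _)))).trans
    (tw_mul' k x a c)⟩

theorem Lv.pow {k : ℕ} {f g : ℕ → ℕ} (hf : Lv (k + 1) f) (hg : Lv k g) :
    Lv (k + 1) (fun x => f x ^ g x) := by
  obtain ⟨a, ha⟩ := hf
  obtain ⟨c, hc⟩ := hg
  refine ⟨a + c + 1, fun x => (Nat.pow_le_pow_left (ha x) _).trans ?_⟩
  show (2 ^ tw k _) ^ g x ≤ 2 ^ tw k _
  rw [← pow_mul]
  exact Nat.pow_le_pow_right (by norm_num)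
    ((Nat.mul_le_mul_left _ (hc x)).trans (tw_mul' k x a c))

theorem Lv.powc {k : ℕ} {f : ℕ → ℕ} (hf : Lv k f) (a : ℕ) : Lv k (fun x => f x ^ a) := by
  induction a with
  | zero => simpa using Lv.const k 1
  | succ a ih => simpa [pow_succ] using ih.mul hf

theorem Lv.fact {k : ℕ} {f : ℕ → ℕ} (hf : Lv k f) : Lv (k + 1) (fun x => (f x).factorial) :=
  (hf.up.pow hf).of_le fun x => Nat.factorial_le_pow (f x)

/-- sample: `c = 6^(M+1)`, `M = (m+1)^D`, is of level 2 -/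
example : Lv 2 (fun z => 6 ^ ((z + 1) ^ z + 1)) :=
  (Lv.const 2 6).pow ((((Lv.id 1).add (Lv.const 1 1)).pow (Lv.id 0)).add (Lv.const 1 1))

end Pool.Agent.EABLv
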