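import Mathlib

open Polynomial Finset

namespace Pool.Agent.EABNm

/-- sum of the absolute values of the coefficients -/
def nm (f : ℤ[X]) : ℤ := ∑ k ∈ f.support, |f.coeff k|

/-- value at `1/B` -/
noncomputable def ev (B : ℕ) (f : ℤ[X]) : ℚ := aeval ((B : ℚ)⁻¹) f

theorem nm_nonneg (f : ℤ[X]) : 0 ≤ nm f := sum_nonneg fun _ _ => abs_nonneg _

theorem sum_le_nm (f : ℤ[X]) (s : Finset ℕ) : ∑ k ∈ s, |f.coeff k| ≤ nm f := by
  classical
  rw [← sum_filter_add_sum_filter_not s (· ∈ f.support)]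
  have h0 : ∑ k ∈ s.filter (· ∉ f.support), |f.coeff k| = 0 :=
    sum_eq_zero fun k hk => by simpa using (mem_filter.mp hk).2
  rw [h0, add_zero]
  exact sum_le_sum_of_subset_of_nonneg (fun k hk => (mem_filter.mp hk).2) fun _ _ _ => abs_nonneg _

theorem nm_eq (f : ℤ[X]) {s : Finset ℕ} (h : f.support ⊆ s) : nm f = ∑ k ∈ s, |f.coeff k| :=
  le_antisymm (sum_le_sum_of_subset_of_nonneg h fun _ _ _ => abs_nonneg _) (sum_le_nm f s)

theorem coeff_le_nm (f : ℤ[X]) (k : ℕ) : |f.coeff k| ≤ nm f := by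
  simpa using sum_le_nm f {k}

theorem nm_add (f g : ℤ[X]) : nm (f + g) ≤ nm f + nm g := by
  refine le_trans ?_ (add_le_add (sum_le_nm f (f + g).support) (sum_le_nm g (f + g).support))
  rw [← sum_add_distrib]
  exact sum_le_sum fun k _ => by rw [coeff_add]; exact abs_add_le _ _

theorem nm_neg (f : ℤ[X]) : nm (-f) = nm f := by simp [nm]

theorem nm_sub (f g : ℤ[X]) : nm (f - g) ≤ nm f + nm g := by
  rw [sub_eq_add_neg, ← nm_neg g]; exact nm_add _ _

theorem nm_zero : nm 0 = 0 := by simp [nm]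

theorem nm_sum {ι : Type*} (s : Finset ι) (f : ι → ℤ[X]) : nm (∑ i ∈ s, f i) ≤ ∑ i ∈ s, nm (f i) := by
  classical
  induction s using Finset.induction_on with
  | empty => simp [nm_zero]
  | insert a s ha ih => rw [sum_insert ha, sum_insert ha]; exact (nm_add _ _).trans (by linarith)

theorem nm_monomial (k : ℕ) (a : ℤ) : nm (monomial k a) = |a| := by
  rw [nm_eq _ (support_monomial_subset k a)]; simp

theorem nm_C (a : ℤ) : nm (C a) = |a| := nm_monomial 0 a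

theorem nm_mul (f g : ℤ[X]) : nm (f * g) ≤ nm f * nm g := by
  rw [mul_eq_sum_sum]
  refine (nm_sum _ _).trans ?_
  rw [nm, nm, sum_mul_sum]
  refine sum_le_sum fun i _ => (nm_sum _ _).trans (le_of_eq ?_)
  exact sum_congr rfl fun j _ => by rw [nm_monomial, abs_mul]

theorem nm_le_of_coeff (f : ℤ[X]) {d : ℕ} {A : ℤ} (hd : f.natDegree ≤ d) (h : ∀ k, |f.coeff k| ≤ A) :
    nm f ≤ (d + 1) * A := by
  rw [nm_eq f (s := range (d + 1)) (supp_subset_range (by omega))]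
  refine (sum_le_card_nsmul _ _ A fun k _ => h k).trans (le_of_eq ?_)
  simp

theorem ev_eq (B : ℕ) (f : ℤ[X]) {N : ℕ} (h : f.natDegree < N) :
    ev B f = ∑ k ∈ range N, (f.coeff k : ℚ) * ((B : ℚ)⁻¹) ^ k := by
  rw [ev, aeval_eq_sum_range' h]
  simp

theorem ev_add (B : ℕ) (f g : ℤ[X]) : ev B (f + g) = ev B f + ev B g := map_add _ _ _
theorem ev_sub (B : ℕ) (f g : ℤ[X]) : ev B (f - g) = ev B f - ev B g := map_sub _ _ _
theorem ev_mul (B : ℕ) (f g : ℤ[X]) : ev B (f * g) = ev B f * ev B g := map_mul _ _ _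
theorem ev_sum (B : ℕ) {ι : Type*} (s : Finset ι) (f : ι → ℤ[X]) :
    ev B (∑ i ∈ s, f i) = ∑ i ∈ s, ev B (f i) := map_sum _ _ _
theorem ev_C (B : ℕ) (a : ℤ) : ev B (C a) = a := by simp [ev]
theorem ev_X_pow (B k : ℕ) : ev B (X ^ k) = ((B : ℚ)⁻¹) ^ k := by simp [ev]

theorem abs_ev_le {B : ℕ} (hB : 1 ≤ B) (f : ℤ[X]) {t : ℕ} (h : X ^ t ∣ f) :
    |ev B f| ≤ nm f * ((B : ℚ)⁻¹) ^ t := by
  have hB' : (1 : ℚ) ≤ B := by exact_mod_cast hB
  rw [ev_eq B f (Nat.lt_succ_self _)]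
  refine (abs_sum_le_sum_abs _ _).trans ?_
  have h2 : ((∑ k ∈ range (f.natDegree + 1), |f.coeff k| : ℤ) : ℚ) ≤ nm f := by
    exact_mod_cast sum_le_nm f _
  refine le_trans ?_ (mul_le_mul_of_nonneg_right h2 (by positivity))
  push_cast
  rw [sum_mul]
  refine sum_le_sum fun k _ => ?_
  rw [abs_mul]
  rcases lt_or_ge k t with hk | hk
  · simp [X_pow_dvd_iff.mp h k hk]
  · refine mul_le_mul_of_nonneg_left ?_ (abs_nonneg _)
    rw [abs_of_nonneg (by positivity)]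
    exact pow_le_pow_of_le_one (by positivity) (inv_le_one_of_one_le₀ hB') hk

/-- `B^d f(1/B)` is an integer -/
theorem ev_int {B : ℕ} (hB : 1 ≤ B) (f : ℤ[X]) {d : ℕ} (hd : f.natDegree ≤ d) :
    ((∑ k ∈ range (d + 1), f.coeff k * (B : ℤ) ^ (d - k) : ℤ) : ℚ) = (B : ℚ) ^ d * ev B f := by
  have hB' : (B : ℚ) ≠ 0 := by positivity
  rw [ev_eq B f (Nat.lt_succ_of_le hd), mul_sum]
  push_cast
  refine sum_congr rfl fun k hk => ?_
  rw [pow_sub₀ _ hB' (Nat.le_of_lt_succ (mem_range.mp hk)), inv_pow]; ring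

/-- (NV) -/
theorem ev_ne_zero {B : ℕ} {f : ℤ[X]} (hf : f ≠ 0) (h : nm f < B) : ev B f ≠ 0 := by
  intro h0
  have hB : 1 ≤ B := by have := nm_nonneg f; omega
  have h1 := ev_int hB f le_rfl
  rw [h0, mul_zero] at h1
  have h2 : ∑ k ∈ range (f.natDegree + 1), f.coeff k * (B : ℤ) ^ (f.natDegree - k) = 0 := by
    exact_mod_cast h1
  rw [sum_range_succ, Nat.sub_self, pow_zero, mul_one] at h2
  have h3 : (B : ℤ) ∣ f.coeff f.natDegree := by
    rw [eq_neg_of_add_eq_zero_right h2, dvd_neg]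
    exact dvd_sum fun k hk => Dvd.dvd.mul_left
      (dvd_pow_self _ (Nat.sub_ne_zero_of_lt (mem_range.mp hk))) _
  exact leadingCoeff_ne_zero.mpr hf
    (Int.eq_zero_of_abs_lt_dvd h3 ((coeff_le_nm f _).trans_lt h))

end Pool.Agent.EABNm
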